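import Pool.Agent.R424.EX.Link

/-!
# The conclusion of the polynomial Freiman-Ruzsa conjecture passes to subgroups
-/

set_option autoImplicit false
set_option linter.unusedSectionVars false

namespace Pool.Agent.Run7.h127.FV

open Finset Pool.Agent.Y806.DF Pool.Agent.R92.Star
open scoped Pointwise

universe u

/-- A homomorphism from a sublattice of `ℤ^d` to `N` whose values are in `G` modulo `H` can be
corrected by elements of `H` so that its values are in `G`. -/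
theorem lattice {N : Type*} [AddCommGroup N] (G H : AddSubgroup N) {d : ℕ}
    (ψ : (Fin d → ℤ) →+ N) :
    ∃ (r : ℕ) (φ : (Fin r → ℤ) →+ (Fin d → ℤ)) (ψ' : (Fin r → ℤ) →+ G),
      Function.Injective φ ∧ (∀ x, ψ x ∈ G ⊔ H → ∃ y, φ y = x) ∧
      ∀ y, ψ (φ y) - (ψ' y : N) ∈ H := by
  classical
  let Λ : Submodule ℤ (Fin d → ℤ) := AddSubgroup.toIntSubmodule ((G ⊔ H).comap ψ)
  have hΛ : ∀ x, x ∈ Λ ↔ ψ x ∈ G ⊔ H := fun x => Iff.rfl
  let b := Module.finBasis ℤ Λ
  have hb : ∀ i, ∃ u ∈ G, ∃ h ∈ H, u + h = ψ (b i : Fin d → ℤ) := fun i =>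
    AddSubgroup.mem_sup.1 ((hΛ _).1 (b i).2)
  choose u hu h hh huh using hb
  let φ : (Fin (Module.finrank ℤ Λ) → ℤ) →ₗ[ℤ] (Fin d → ℤ) :=
    Λ.subtype ∘ₗ b.equivFun.symm.toLinearMap
  let ψ' : (Fin (Module.finrank ℤ Λ) → ℤ) →ₗ[ℤ] G :=
    (Pi.basisFun ℤ (Fin (Module.finrank ℤ Λ))).constr ℤ (fun i => (⟨u i, hu i⟩ : G))
  refine ⟨Module.finrank ℤ Λ, φ.toAddMonoidHom, ψ'.toAddMonoidHom, ?_, ?_, ?_⟩
  · intro x y hxy
    have h1 : ((b.equivFun.symm x : Λ) : Fin d → ℤ) = (b.equivFun.symm y : Λ) := hxy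
    exact b.equivFun.symm.injective (Subtype.ext h1)
  · intro x hx
    refine ⟨b.equivFun ⟨x, (hΛ x).2 hx⟩, ?_⟩
    show ((b.equivFun.symm (b.equivFun ⟨x, (hΛ x).2 hx⟩) : Λ) : Fin d → ℤ) = x
    rw [LinearEquiv.symm_apply_apply]
  · let q := QuotientAddGroup.mk' H
    have key : (q.comp ψ).toIntLinearMap ∘ₗ φ =
        (q.comp G.subtype).toIntLinearMap ∘ₗ ψ' := by
      refine (Pi.basisFun ℤ (Fin (Module.finrank ℤ Λ))).ext fun i => ?_
      have e1 : ψ' ((Pi.basisFun ℤ (Fin (Module.finrank ℤ Λ))) i) = ⟨u i, hu i⟩ :=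
        Module.Basis.constr_basis _ _ _ _
      have e2 : φ ((Pi.basisFun ℤ (Fin (Module.finrank ℤ Λ))) i) = (b i : Fin d → ℤ) := by
        show ((b.equivFun.symm ((Pi.basisFun ℤ (Fin (Module.finrank ℤ Λ))) i) : Λ) : Fin d → ℤ) = _
        congr 1
        rw [Pi.basisFun_apply, LinearEquiv.symm_apply_eq]
        funext j
        rw [Module.Basis.equivFun_apply, Module.Basis.repr_self, Finsupp.single_apply,
          Pi.single_apply]
        congr 1
        exact propext eq_comm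
      have e3 : (q.comp ψ).toIntLinearMap (φ ((Pi.basisFun ℤ (Fin (Module.finrank ℤ Λ))) i)) =
          (q.comp G.subtype).toIntLinearMap
            (ψ' ((Pi.basisFun ℤ (Fin (Module.finrank ℤ Λ))) i)) := by
        rw [e1, e2]
        show q (ψ (b i : Fin d → ℤ)) = q (u i)
        rw [← huh i, map_add]
        have : q (h i) = 0 := (QuotientAddGroup.eq_zero_iff _).2 (hh i)
        rw [this, add_zero]
      exact e3
    intro y
    have h1 : q (ψ (φ y)) = q (ψ' y : N) := LinearMap.congr_fun key y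
    have h2 : q (ψ (φ y) - (ψ' y : N)) = 0 := by
      rw [map_sub, h1, sub_self]
    exact (QuotientAddGroup.eq_zero_iff _).1 h2

/-- `Data` passes to subgroups. -/
theorem data_hered {N : Type*} [AddCommGroup N] [DecidableEq N] (G : AddSubgroup N)
    [DecidableEq G] {L : ℝ} (hL : 1 ≤ L) {S : Finset G} (hS : S.Nonempty) {d : ℕ}
    {X : Finset (Fin d → ℤ)} {ψ : (Fin d → ℤ) →+ N} {H : AddSubgroup N} {g : N}
    (hD : Data L (S.image G.subtype) X ψ H g) :
    ∃ (r : ℕ) (Y : Finset (Fin r → ℤ)) (ψ' : (Fin r → ℤ) →+ G) (H' : AddSubgroup G) (g' : G),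
      Data (L ^ 3) S Y ψ' H' g' := by
  classical
  have hHfin := hD.fin
  have hL0 : 0 < L := by linarith
  have hScard : (S.image G.subtype).card = S.card :=
    card_image_of_injective _ G.subtype_injective
  have hS0 : (0 : ℝ) < S.card := by exact_mod_cast hS.card_pos
  obtain ⟨S1, hS1⟩ : ∃ S1, S1 = S.filter (fun a : G => ∃ x ∈ X, ∃ h ∈ H, (a : N) = g + ψ x + h) :=
    ⟨_, rfl⟩
  have hmeet : (S.card : ℝ) ≤ L * S1.card := by
    have h1 := hD.meet
    have h2 : {a : N | a ∈ S.image G.subtype ∧ ∃ x ∈ X, ∃ h ∈ H, a = g + ψ x + h} =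
        ((S1.image G.subtype : Finset N) : Set N) := by
      ext a
      rw [hS1]
      simp only [Set.mem_ofPred_eq, coe_image, coe_filter, mem_image, Set.mem_image]
      constructor
      · rintro ⟨⟨s, hs, rfl⟩, h3⟩
        exact ⟨s, ⟨hs, h3⟩, rfl⟩
      · rintro ⟨s, ⟨hs, h3⟩, rfl⟩
        exact ⟨⟨s, hs, rfl⟩, h3⟩
    rw [h2, Set.ncard_coe_finset, hScard, card_image_of_injective _ G.subtype_injective] at h1
    exact h1
  have hS1ne : S1.Nonempty := by
    rw [← card_pos]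
    by_contra hcon
    have h0 : S1.card = 0 := by omega
    rw [h0, Nat.cast_zero, mul_zero] at hmeet
    linarith
  obtain ⟨a₀, ha₀⟩ := hS1ne
  obtain ⟨x₀, hx₀, h₀, hh₀, ea₀⟩ := (mem_filter.1 (hS1 ▸ ha₀)).2
  obtain ⟨r, φ, ψ', hφ, hlat, hψ'⟩ := lattice G H ψ
  have hinj : Function.Injective (fun y : Fin r → ℤ => x₀ + φ y) := fun y z h =>
    hφ (add_left_cancel h)
  obtain ⟨Y, hY⟩ : ∃ Y, Y = X.preimage (fun y : Fin r → ℤ => x₀ + φ y) hinj.injOn := ⟨_, rfl⟩
  have hmemY : ∀ y, y ∈ Y ↔ x₀ + φ y ∈ X := by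
    intro y
    rw [hY]
    exact mem_preimage
  obtain ⟨H', hH'⟩ : ∃ H', H' = H.addSubgroupOf G := ⟨_, rfl⟩
  have hmemH : ∀ h : G, h ∈ H' ↔ (h : N) ∈ H := by
    intro h
    rw [hH']
    exact AddSubgroup.mem_addSubgroupOf
  let emb : H' → H := fun h => ⟨((h : G) : N), (hmemH _).1 h.2⟩
  have hembi : Function.Injective emb := by
    intro a b hab
    have h1 : ((a : G) : N) = ((b : G) : N) := congrArg (fun z : H => (z : N)) hab
    exact Subtype.ext (Subtype.ext h1)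
  have hH'fin : Finite H' := Finite.of_injective emb hembi
  have hH'card : Nat.card H' ≤ Nat.card H := Nat.card_le_card_of_injective emb hembi
  -- the elements of `S1`
  have hrep : ∀ a ∈ S1, ∃ y ∈ Y, ∃ h ∈ H', a = a₀ + ψ' y + h := by
    intro a ha
    obtain ⟨x, hx, h, hh, ea⟩ := (mem_filter.1 (hS1 ▸ ha)).2
    have h1 : ψ (x - x₀) ∈ G ⊔ H := by
      have e1 : ψ (x - x₀) = ((a - a₀ : G) : N) + (h₀ - h) := by
        rw [map_sub]
        push_cast
        rw [ea, ea₀]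
        abel
      rw [e1]
      exact AddSubgroup.mem_sup.2 ⟨_, (a - a₀).2, _, H.sub_mem hh₀ hh, rfl⟩
    obtain ⟨y, hy⟩ := hlat _ h1
    have h2 := hψ' y
    refine ⟨y, (hmemY y).2 ?_, a - a₀ - ψ' y, (hmemH _).2 ?_, by abel⟩
    · rw [hy, add_sub_cancel]
      exact hx
    · have e1 : ((a - a₀ - ψ' y : G) : N) = (h - h₀) + (ψ (φ y) - (ψ' y : N)) := by
        push_cast
        rw [hy, map_sub, ea, ea₀]
        abel
      rw [e1]
      exact H.add_mem (H.sub_mem hh hh₀) h2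
  -- cardinalities
  have hS1c : (S1.card : ℝ) ≤ Y.card * Nat.card H' := by
    have : Fintype H' := Fintype.ofFinite _
    have h1 : S1 ⊆ (Y ×ˢ (univ : Finset H')).image (fun p => a₀ + ψ' p.1 + (p.2 : G)) := by
      intro a ha
      obtain ⟨y, hy, h, hh, rfl⟩ := hrep a ha
      exact mem_image.2 ⟨(y, ⟨h, hh⟩), mem_product.2 ⟨hy, mem_univ _⟩, rfl⟩
    have h2 := (card_le_card h1).trans card_image_le
    rw [card_product, card_univ, ← Nat.card_eq_fintype_card] at h2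
    exact_mod_cast h2
  have hYX : Y.card ≤ X.card := by
    refine card_le_card_of_injOn (fun y => x₀ + φ y) (fun y hy => ?_) hinj.injOn
    exact mem_coe.2 ((hmemY y).1 (mem_coe.1 hy))
  have hHpos : (0 : ℝ) < Nat.card H := by exact_mod_cast Nat.card_pos
  have hXY : (X.card : ℝ) ≤ L ^ 2 * Y.card := by
    have h1 := hD.size
    rw [hScard] at h1
    have h2 : (X.card : ℝ) * Nat.card H ≤ (L ^ 2 * Y.card) * Nat.card H := by
      calc (X.card : ℝ) * Nat.card H ≤ L * S.card := h1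
        _ ≤ L * (L * (Y.card * Nat.card H')) :=
          mul_le_mul_of_nonneg_left (hmeet.trans (mul_le_mul_of_nonneg_left hS1c hL0.le)) hL0.le
        _ ≤ L * (L * (Y.card * Nat.card H)) := by
          have : (Nat.card H' : ℝ) ≤ Nat.card H := by exact_mod_cast hH'card
          gcongr
        _ = (L ^ 2 * Y.card) * Nat.card H := by ring
    exact le_of_mul_le_mul_right h2 hHpos
  have hL3 : L ≤ L ^ 3 := le_self_pow₀ hL (by norm_num)
  refine ⟨r, Y, ψ', H', a₀, ⟨?_, hH'fin, ?_, ?_, ?_, ?_⟩⟩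
  · refine ⟨0, (hmemY 0).2 ?_⟩
    rw [map_zero, add_zero]
    exact hx₀
  · have h1 : (Y + Y).card ≤ (X + X).card := by
      refine card_le_card_of_injOn (fun y => x₀ + x₀ + φ y) (fun y hy => ?_) ?_
      · obtain ⟨p, hp, q, hq, rfl⟩ := mem_add.1 (mem_coe.1 hy)
        rw [mem_coe, mem_add]
        refine ⟨x₀ + φ p, (hmemY p).1 hp, x₀ + φ q, (hmemY q).1 hq, ?_⟩
        show x₀ + φ p + (x₀ + φ q) = x₀ + x₀ + φ (p + q)
        rw [map_add]
        abel
      · intro y _ z _ h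
        exact hφ (add_left_cancel h)
    calc ((Y + Y).card : ℝ) ≤ (X + X).card := by exact_mod_cast h1
      _ ≤ L * X.card := hD.doubling
      _ ≤ L * (L ^ 2 * Y.card) := mul_le_mul_of_nonneg_left hXY hL0.le
      _ = L ^ 3 * Y.card := by ring
  · have h1 := hull_map φ hφ x₀ X Y (fun y hy => (hmemY y).1 hy)
    calc ((hull Y).ncard : ℝ) ≤ (hull X).ncard := by exact_mod_cast h1
      _ ≤ L * X.card := hD.dense
      _ ≤ L * (L ^ 2 * Y.card) := mul_le_mul_of_nonneg_left hXY hL0.le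
      _ = L ^ 3 * Y.card := by ring
  · have h1 := hD.size
    rw [hScard] at h1
    calc (Y.card : ℝ) * Nat.card H' ≤ X.card * Nat.card H := by
          have e1 : (Y.card : ℝ) ≤ X.card := by exact_mod_cast hYX
          have e2 : (Nat.card H' : ℝ) ≤ Nat.card H := by exact_mod_cast hH'card
          gcongr
      _ ≤ L * S.card := h1
      _ ≤ L ^ 3 * S.card := mul_le_mul_of_nonneg_right hL3 hS0.le
  · have h1 : {a : G | a ∈ S ∧ ∃ y ∈ Y, ∃ h ∈ H', a = a₀ + ψ' y + h} =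
        ((S.filter fun a => ∃ y ∈ Y, ∃ h ∈ H', a = a₀ + ψ' y + h : Finset G) : Set G) := by
      rw [coe_filter]
    rw [h1, Set.ncard_coe_finset]
    have h2 : S1 ⊆ S.filter fun a => ∃ y ∈ Y, ∃ h ∈ H', a = a₀ + ψ' y + h := by
      intro a ha
      exact mem_filter.2 ⟨(mem_filter.1 (hS1 ▸ ha)).1, hrep a ha⟩
    have h3 : (S1.card : ℝ) ≤
        (S.filter fun a => ∃ y ∈ Y, ∃ h ∈ H', a = a₀ + ψ' y + h).card := by
      exact_mod_cast card_le_card h2
    calc (S.card : ℝ) ≤ L * S1.card := hmeet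
      _ ≤ L ^ 3 * (S.filter fun a => ∃ y ∈ Y, ∃ h ∈ H', a = a₀ + ψ' y + h).card :=
        mul_le_mul hL3 h3 (Nat.cast_nonneg _) (by positivity)

/-- **Q1 is hereditary.** -/
theorem concl_hered (C : ℝ) : ∃ C' : ℝ, ∀ (N : Type u) [AddCommGroup N] [DecidableEq N]
    (G : AddSubgroup N) [DecidableEq G],
    (∀ (K : ℝ) (S : Finset N), S.Nonempty → ((S + S).card : ℝ) ≤ K * S.card → Concl C K S) →
    ∀ (K : ℝ) (S : Finset G), S.Nonempty → ((S + S).card : ℝ) ≤ K * S.card → Concl C' K S := by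
  obtain ⟨n, hn1, hn, hCK⟩ := nat_const C
  obtain ⟨C', hC'⟩ := Pool.Agent.R424.EX.concl_of.{u} ((4 ^ n) ^ 3) (4 ^ n * 3)
  refine ⟨C', ?_⟩
  intro N _ _ G _ hN K S hS hK
  have hK1 := one_le_K hS hK
  have h1 : ((S.image G.subtype + S.image G.subtype).card : ℝ) ≤ K * (S.image G.subtype).card := by
    rw [← Finset.image_add G.subtype, card_image_of_injective _ G.subtype_injective,
      card_image_of_injective _ G.subtype_injective]
    exact hK
  obtain ⟨d, X, ψ, H, g, hD⟩ := data_of_concl hn1 hn hCK (hS.image _) h1 (hN K _ (hS.image _) h1)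
  have hL : (1 : ℝ) ≤ ((4 ^ n : ℕ) : ℝ) * K ^ (4 ^ n : ℕ) := by
    have e1 : (1 : ℝ) ≤ ((4 ^ n : ℕ) : ℝ) := by exact_mod_cast Nat.one_le_pow _ _ (by norm_num)
    have e2 : (1 : ℝ) ≤ K ^ (4 ^ n : ℕ) := one_le_pow₀ hK1
    nlinarith
  obtain ⟨r, Y, ψ', H', g', hD'⟩ := data_hered G hL hS hD
  refine hC' G K S hS hK r Y ψ' H' g' (hD'.mono (le_of_eq ?_))
  push_cast
  rw [mul_pow, ← pow_mul K]

end Pool.Agent.Run7.h127.FV
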