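import Pool.Agent.Run7.h127.FV.Multi
import Pool.Agent.Run7.h127.FV.Hered
import Pool.Agent.R849.IS.Pfr

/-!
# Consequences for the polynomial Freiman-Ruzsa conjecture
-/

set_option autoImplicit false
set_option linter.unusedSectionVars false

namespace Pool.Agent.Run7.h127.FV

open Finset Pool.Agent.Y806.DF Pool.Agent.R92.Star Pool.Agent.R849.IS
open scoped Pointwise

universe u

/-- the elements of which a multiple is in `N` -/
def root {Γ : Type u} [AddCommGroup Γ] (M : ℕ) (N : AddSubgroup Γ) : AddSubgroup Γ :=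
  N.comap (nsmulAddMonoidHom M)

lemma mem_root {Γ : Type u} [AddCommGroup Γ] {M : ℕ} {N : AddSubgroup Γ} {x : Γ} :
    x ∈ root M N ↔ M • x ∈ N := Iff.rfl

/-- `inter` with any decidability instances -/
theorem inter' {Γ : Type u} [AddCommGroup Γ] [d : DecidableEq Γ] {A : Finset Γ}
    (hA : A.Nonempty) {K : ℝ} (hK : ((A + A).card : ℝ) ≤ K * A.card) {m : ℕ} (hm : 1 ≤ m)
    (F : Set (AddSubgroup Γ))
    (hF : ∀ G ∈ F, ∃ B : Finset Γ, B.card ≤ m ∧
      100 * ({a | a ∈ A ∧ ∀ b ∈ B, a - b ∉ G}.ncard : ℝ) ≤ A.card) :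
    ∃ g ∈ A, (A.card : ℝ) ≤ K ^ (10 ^ 9 * Real.log (2 * m)) *
      (sec (root (mult m) (sInf F)) A g).card := by
  classical
  have hd : d = (fun a b => Classical.propDecidable (a = b)) := Subsingleton.elim _ _
  subst hd
  obtain ⟨g, hg, h⟩ := inter hA hK hm F (fun G hG => by
    obtain ⟨B, hB, he⟩ := hF G hG
    refine ⟨B, hB, ?_⟩
    rw [← ncard_eq]
    exact he)
  refine ⟨g, hg, ?_⟩
  rw [card_sec]
  exact h

/-- The largest fibre over the cosets of a subgroup has small doubling. -/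
theorem fibre {Γ : Type u} [AddCommGroup Γ] [DecidableEq Γ] (W : AddSubgroup Γ) [DecidableEq W]
    {A : Finset Γ} (hA : A.Nonempty) {K : ℝ} (hK : ((A + A).card : ℝ) ≤ K * A.card) :
    ∃ c ∈ A, (∀ g : Γ, (sec W A g).card ≤ (sec W A c).card) ∧
      ((sec W A c + sec W A c).card : ℝ) ≤ K ^ 3 * (sec W A c).card := by
  classical
  obtain ⟨c, hc, hmax⟩ := A.exists_max_image (fun c => (sec W A c).card) hA
  refine ⟨c, hc, ?_, ?_⟩
  · intro g
    rcases (sec W A g).eq_empty_or_nonempty with h0 | ⟨s, hs⟩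
    · rw [h0, card_empty]
      exact Nat.zero_le _
    · refine le_trans (le_of_eq ?_) (hmax _ (mem_sec.1 hs))
      rw [card_sec, card_sec]
      congr 1
      refine filter_congr fun a _ => ?_
      have e1 : a - g = (a - (g + s)) + s := by abel
      rw [e1, W.add_mem_cancel_right s.2]
  · let f := QuotientAddGroup.mk' W
    obtain ⟨Q, hQ⟩ : ∃ Q, Q = A.filter (fun a => a - c ∈ W) := ⟨_, rfl⟩
    have hQc : Q.card = (sec W A c).card := by
      rw [card_sec, hQ]
    have hfQ : ∀ q ∈ Q, f q = f c := by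
      intro q hq
      rw [hQ, mem_filter] at hq
      have h1 : f (q - c) = 0 := (QuotientAddGroup.eq_zero_iff _).2 hq.2
      rw [map_sub, sub_eq_zero] at h1
      exact h1
    have hQpos : (0 : ℝ) < Q.card := by
      have : c ∈ Q := by
        rw [hQ, mem_filter, sub_self]
        exact ⟨hc, W.zero_mem⟩
      exact_mod_cast card_pos.2 ⟨c, this⟩
    have hQA : Q ⊆ A := by
      rw [hQ]
      exact filter_subset _ _
    -- the number of the fibres
    have h1 : (A.card : ℝ) ≤ Q.card * (A.image f).card := by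
      have := card_le_mul_card_image (f := f) A Q.card (by
        intro z hz
        obtain ⟨a, ha, rfl⟩ := mem_image.1 hz
        rw [hQc]
        refine le_trans (le_of_eq ?_) (hmax a ha)
        rw [card_sec]
        congr 1
        refine filter_congr fun b _ => ?_
        have e1 : f b = f a ↔ f (b - a) = 0 := by rw [map_sub, sub_eq_zero]
        rw [e1]
        exact QuotientAddGroup.eq_zero_iff _)
      exact_mod_cast this
    have h2 : (A.image f).card * (Q + Q).card ≤ (A + (Q + Q)).card :=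
      Pool.Agent.R424.EX.fib f A (Q + Q) (f c + f c) (by
        intro z hz
        obtain ⟨a, ha, b, hb, rfl⟩ := mem_add.1 hz
        rw [map_add, hfQ a ha, hfQ b hb])
    have h3 : A + (Q + Q) ⊆ {0} + (3 • A - 0 • A) := by
      intro z hz
      obtain ⟨a, ha, p, hp, rfl⟩ := mem_add.1 hz
      obtain ⟨x, hx, y, hy, rfl⟩ := mem_add.1 hp
      refine mem_add.2 ⟨0, mem_singleton_self _, (a + x + y) - 0, Pool.Agent.R424.EX.mem_pr
        (Pool.Agent.R424.EX.mem_add_nsmul (i := 2) (j := 1)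
          (Pool.Agent.R424.EX.mem_add_nsmul (i := 1) (j := 1)
            (Pool.Agent.R424.EX.mem_one ha) (Pool.Agent.R424.EX.mem_one (hQA hx)))
          (Pool.Agent.R424.EX.mem_one (hQA hy))) ?_, by abel⟩
      rw [zero_nsmul]
      exact mem_zero.2 rfl
    have h4 := Pool.Agent.R424.EX.card_cov hA hK {0} 3 0 h3
    rw [card_singleton, Nat.cast_one, one_mul, add_zero] at h4
    have hK0 : 0 ≤ K := by linarith [one_le_K hA hK]
    have hipos : (0 : ℝ) < (A.image f).card := by exact_mod_cast card_pos.2 (hA.image f)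
    have h5 : ((Q + Q).card : ℝ) * (A.image f).card ≤ (K ^ 3 * Q.card) * (A.image f).card := by
      calc ((Q + Q).card : ℝ) * (A.image f).card = ((A.image f).card * (Q + Q).card : ℕ) := by
            push_cast
            ring
        _ ≤ (A + (Q + Q)).card := by exact_mod_cast h2
        _ ≤ K ^ 3 * A.card := h4
        _ ≤ K ^ 3 * (Q.card * (A.image f).card) := mul_le_mul_of_nonneg_left h1 (by positivity)
        _ = (K ^ 3 * Q.card) * (A.image f).card := by ring
    have h6 : ((Q + Q).card : ℝ) ≤ K ^ 3 * Q.card := le_of_mul_le_mul_right h5 hipos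
    have h7 : sec W A c = sec W Q c := by
      ext s
      rw [mem_sec, mem_sec, hQ, mem_filter, add_sub_cancel_left]
      exact ⟨fun h => ⟨h, s.2⟩, fun h => h.1⟩
    have h8 := card_sec_add W Q c
    rw [← h7] at h8
    rw [← hQc]
    exact (by exact_mod_cast h8 : ((sec W A c + sec W A c).card : ℝ) ≤ (Q + Q).card).trans h6

/-- **Covering by cosets of a finite subgroup.** -/
theorem torsion' {Γ : Type u} [AddCommGroup Γ] [DecidableEq Γ] (W : AddSubgroup Γ) {q : ℕ}
    (hq : 0 < q) (hW : ∀ x ∈ W, q • x = 0) {A : Finset Γ} {g : Γ} {K M : ℝ} (hA : A.Nonempty)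
    (hK : ((A + A).card : ℝ) ≤ K * A.card) (hM : 0 ≤ M)
    (hbig : (A.card : ℝ) ≤ M * (sec W A g).card) :
    ∃ (H : AddSubgroup Γ) (T : Finset Γ), Finite H ∧ Nat.card H ≤ A.card ∧
      (T.card : ℝ) ≤ K * M * (2 * K) ^ (246030 * (Nat.log 2 q + 1)) ∧
        ∀ a ∈ A, ∃ t ∈ T, a - t ∈ H := by
  classical
  have hK1 := one_le_K hA hK
  have hK0 : 0 < K := by linarith
  obtain ⟨c, hc, hmax, hdbl⟩ := fibre W hA hK
  have hbig' : (A.card : ℝ) ≤ M * (sec W A c).card :=
    hbig.trans (mul_le_mul_of_nonneg_left (by exact_mod_cast hmax g) hM)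
  have hSne : (sec W A c).Nonempty := ⟨0, mem_sec.2 (by simpa using hc)⟩
  obtain ⟨H, T0, hfin, hcard, hT0, hcov⟩ := Pool.Agent.TH404.Tor.upper (Γ := W) q hq
    (fun x => Subtype.ext (by simpa using hW x x.2)) (K ^ 3) (sec W A c) hSne hdbl
  obtain ⟨T1, -, hT1, hcov1⟩ := cosets W hA hK hK0.le hbig'
  obtain ⟨E, hE⟩ : ∃ E : ℕ, E = 41005 * (Nat.log 2 q + 1) := ⟨_, rfl⟩
  rw [← hE] at hT0
  have hEN : 246030 * (Nat.log 2 q + 1) = 6 * E := by omega
  rw [hEN]
  have hHcard : Nat.card (H.map W.subtype) = Nat.card H :=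
    Nat.card_congr (H.equivMapOfInjective W.subtype W.subtype_injective).toEquiv.symm
  refine ⟨H.map W.subtype, T1 + (T0 - T0).image (fun s : W => (s : Γ)), ?_, ?_, ?_, ?_⟩
  · refine Nat.finite_of_card_ne_zero ?_
    rw [hHcard]
    exact Nat.card_pos.ne'
  · rw [hHcard]
    refine hcard.trans ?_
    rw [card_sec]
    exact card_filter_le _ _
  · have h1 : ((T1 + (T0 - T0).image (fun s : W => (s : Γ))).card : ℝ) ≤
        T1.card * (T0.card * T0.card) := by
      have h2 := card_add_le (s := T1) (t := (T0 - T0).image (fun s : W => (s : Γ)))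
      have h3 := h2.trans (Nat.mul_le_mul_left _ (card_image_le.trans (card_sub_le (s := T0) (t := T0))))
      exact_mod_cast h3
    have h2 : (2 : ℝ) * K ^ 3 ≤ (2 * K) ^ 3 := by
      have : (0 : ℝ) < K ^ 3 := by positivity
      nlinarith
    have h3 : (T0.card : ℝ) ≤ (2 * K) ^ (3 * E) := by
      rw [pow_mul]
      exact hT0.trans (pow_le_pow_left₀ (by positivity) h2 _)
    calc ((T1 + (T0 - T0).image (fun s : W => (s : Γ))).card : ℝ) ≤
        T1.card * (T0.card * T0.card) := h1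
      _ ≤ (K * M) * ((2 * K) ^ (3 * E) * (2 * K) ^ (3 * E)) := by gcongr
      _ = K * M * (2 * K) ^ (6 * E) := by
        rw [← pow_add]
        congr 2
        ring
  · intro a ha
    obtain ⟨t, ht, x, hx, y, hy, rfl⟩ := hcov1 a ha
    obtain ⟨p, hp, hp2⟩ := hcov x hx
    obtain ⟨q, hq, hq2⟩ := hcov y hy
    refine ⟨t + ((p - q : W) : Γ), add_mem_add ht (mem_image_of_mem _ (sub_mem_sub hp hq)), ?_⟩
    refine ⟨(x - p) - (y - q), H.sub_mem hp2 hq2, ?_⟩
    show (((x - p) - (y - q) : W) : Γ) = _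
    push_cast
    abel

lemma log_le_self {m : ℕ} (hm : 1 ≤ m) : Real.log (2 * m) ≤ m := by
  have hm1 : (1 : ℝ) ≤ m := by exact_mod_cast hm
  rw [Real.log_mul (by norm_num) (by positivity)]
  have h1 := Real.log_le_sub_one_of_pos (show (0 : ℝ) < m by linarith)
  have h2 := Real.log_two_lt_d9
  norm_num at h2
  linarith

lemma log_mult_mul {m q : ℕ} (hq : 0 < q) :
    Nat.log 2 (mult m * q) ≤ 48 * m + Nat.log 2 q + 1 := by
  have hM : (0 : ℝ) < mult m := by exact_mod_cast mult_pos m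
  have hq' : (0 : ℝ) < q := by exact_mod_cast hq
  have h1 : mult m < 2 ^ (48 * m + 1) := by
    have h2 := log_mult m
    have h3 : Real.log (mult m) < Real.log ((2 : ℝ) ^ (48 * m + 1)) := by
      rw [Real.log_pow]
      have h4 := Real.log_two_gt_d9
      norm_num at h4
      have hm : (0 : ℝ) ≤ m := Nat.cast_nonneg m
      push_cast
      have h5 : (48 * (m : ℝ) + 1) * (6931471803 / 10000000000) ≤ (48 * (m : ℝ) + 1) * Real.log 2 :=
        mul_le_mul_of_nonneg_left h4.le (by positivity)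
      linarith
    have h4 := (Real.log_lt_log_iff hM (by positivity)).1 h3
    exact_mod_cast h4
  have h2 : q < 2 ^ (Nat.log 2 q + 1) := Nat.lt_pow_succ_log_self (by norm_num) _
  have h3 : mult m * q < 2 ^ (48 * m + Nat.log 2 q + 2) := by
    calc mult m * q < 2 ^ (48 * m + 1) * 2 ^ (Nat.log 2 q + 1) := Nat.mul_lt_mul'' h1 h2
      _ = 2 ^ (48 * m + Nat.log 2 q + 2) := by
        rw [← pow_add]
        congr 1
        ring
  have h4 := Nat.log_lt_of_lt_pow (Nat.mul_pos (mult_pos m) hq).ne' h3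
  omega

/-- **Intersections of bounded exponent.** -/
theorem bounded {Γ : Type u} [AddCommGroup Γ] [DecidableEq Γ] {A : Finset Γ}
    (hA : A.Nonempty) {K : ℝ} (hK : ((A + A).card : ℝ) ≤ K * A.card) {m : ℕ} (hm : 1 ≤ m)
    (F : Set (AddSubgroup Γ))
    (hF : ∀ G ∈ F, ∃ B : Finset Γ, B.card ≤ m ∧
      100 * ({a | a ∈ A ∧ ∀ b ∈ B, a - b ∉ G}.ncard : ℝ) ≤ A.card) {q : ℕ} (hq : 0 < q)
    (hN : ∀ x ∈ sInf F, q • x = 0) :
    ∃ (H : AddSubgroup Γ) (T : Finset Γ), Finite H ∧ Nat.card H ≤ A.card ∧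
      (T.card : ℝ) ≤ (2 * K) ^ (2 * 10 ^ 9 * (m + Nat.log 2 q + 1)) ∧
        ∀ a ∈ A, ∃ t ∈ T, a - t ∈ H := by
  have hK1 := one_le_K hA hK
  have hK0 : 0 < K := by linarith
  obtain ⟨g, -, hg⟩ := inter' hA hK hm F hF
  obtain ⟨H, T, h1, h2, h3, h4⟩ := torsion' (root (mult m) (sInf F)) (q := mult m * q)
    (Nat.mul_pos (mult_pos m) hq) (fun x hx => by
      rw [mul_nsmul]
      exact hN _ (mem_root.1 hx)) hA hK (Real.rpow_nonneg hK0.le _) hg
  refine ⟨H, T, h1, h2, h3.trans ?_, h4⟩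
  have h5 : K ^ (10 ^ 9 * Real.log (2 * m)) ≤ (2 * K) ^ (10 ^ 9 * m) := by
    calc K ^ (10 ^ 9 * Real.log (2 * m)) ≤ K ^ (((10 ^ 9 * m : ℕ)) : ℝ) := by
          refine Real.rpow_le_rpow_of_exponent_le hK1 ?_
          push_cast
          have := log_le_self hm
          linarith
      _ = K ^ (10 ^ 9 * m) := Real.rpow_natCast _ _
      _ ≤ (2 * K) ^ (10 ^ 9 * m) := pow_le_pow_left₀ hK0.le (by linarith) _
  have h6 : K ≤ (2 * K) ^ 1 := by
    rw [pow_one]
    linarith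
  calc K * K ^ (10 ^ 9 * Real.log (2 * m)) * (2 * K) ^ (246030 * (Nat.log 2 (mult m * q) + 1))
      ≤ (2 * K) ^ 1 * (2 * K) ^ (10 ^ 9 * m) *
          (2 * K) ^ (246030 * (48 * m + Nat.log 2 q + 1 + 1)) := by
        have h7 : (2 * K) ^ (246030 * (Nat.log 2 (mult m * q) + 1)) ≤
            (2 * K) ^ (246030 * (48 * m + Nat.log 2 q + 1 + 1)) := by
          refine pow_le_pow_right₀ (by linarith) (Nat.mul_le_mul_left _ ?_)
          have := log_mult_mul (m := m) hq
          omega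
        gcongr
    _ = (2 * K) ^ (1 + 10 ^ 9 * m + 246030 * (48 * m + Nat.log 2 q + 1 + 1)) := by
        rw [← pow_add, ← pow_add]
    _ ≤ (2 * K) ^ (2 * 10 ^ 9 * (m + Nat.log 2 q + 1)) := by
        refine pow_le_pow_right₀ (by linarith) ?_
        norm_num
        omega

/-- **Transfer.** -/
theorem transfer (C : ℝ) (c : ℕ) : ∃ C' : ℝ, ∀ (Γ : Type u) [AddCommGroup Γ] [DecidableEq Γ]
    (G : AddSubgroup Γ) [DecidableEq G],
    (∀ (K : ℝ) (S : Finset G), S.Nonempty → ((S + S).card : ℝ) ≤ K * S.card → Concl C K S) →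
    ∀ (K : ℝ) (A : Finset Γ) (g : Γ), A.Nonempty → ((A + A).card : ℝ) ≤ K * A.card →
      (A.card : ℝ) ≤ K ^ c * (sec G A g).card → Concl C' K A := by
  obtain ⟨n, hn1, hn, hCK⟩ := nat_const C
  obtain ⟨C', hC'⟩ := Pool.Agent.R424.EX.concl_of.{u} (4 ^ n) (c + (c + 1) * 4 ^ n)
  refine ⟨C', ?_⟩
  intro Γ _ _ G _ hG K A g hA hK hbig
  have hK1 := one_le_K hA hK
  have hK0 : 0 < K := by linarith
  have hA0 : (0 : ℝ) < A.card := by exact_mod_cast hA.card_pos
  have hSne : (sec G A g).Nonempty := by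
    rw [← card_pos]
    by_contra hcon
    have h0 : (sec G A g).card = 0 := by omega
    rw [h0, Nat.cast_zero, mul_zero] at hbig
    linarith
  have hSS : ((sec G A g + sec G A g).card : ℝ) ≤ K ^ (c + 1) * (sec G A g).card := by
    have h1 : ((sec G A g + sec G A g).card : ℝ) ≤ (A + A).card := by
      exact_mod_cast card_sec_add G A g
    calc ((sec G A g + sec G A g).card : ℝ) ≤ K * A.card := h1.trans hK
      _ ≤ K * (K ^ c * (sec G A g).card) := mul_le_mul_of_nonneg_left hbig hK0.le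
      _ = K ^ (c + 1) * (sec G A g).card := by ring
  obtain ⟨e, X, ψ, H, g', hD⟩ := data_of_concl hn1 hn hCK hSne hSS (hG _ _ hSne hSS)
  have hM1 : (1 : ℝ) ≤ K ^ c := one_le_pow₀ hK1
  have hL1 : (0 : ℝ) ≤ ((4 ^ n : ℕ) : ℝ) * (K ^ (c + 1)) ^ (4 ^ n : ℕ) := by positivity
  obtain ⟨ψ', H', g₁, hD'⟩ := data_sec G hM1 hL1 hbig hD
  refine hC' Γ K A hA hK _ _ ψ' H' g₁ (hD'.mono (le_of_eq ?_))
  rw [← pow_mul, pow_add]
  ring

/-- **Q1 for the subgroup of the elements of which a multiple is in `N`.** -/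
theorem root_concl (C : ℝ) (M : ℕ) (hM : 0 < M) : ∃ C' : ℝ, ∀ (Γ : Type u) [AddCommGroup Γ]
    [DecidableEq Γ] (N : AddSubgroup Γ) [DecidableEq N] [DecidableEq (root M N)],
    (∀ (K : ℝ) (S : Finset N), S.Nonempty → ((S + S).card : ℝ) ≤ K * S.card → Concl C K S) →
    ∀ (K : ℝ) (S : Finset (root M N)), S.Nonempty → ((S + S).card : ℝ) ≤ K * S.card →
      Concl C' K S := by
  classical
  obtain ⟨C₁, hC₁⟩ := concl_hered.{u} C
  obtain ⟨C₂, hC₂⟩ := Pool.Agent.R424.EX.ext.{u, u} C₁ M hM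
  refine ⟨C₂, ?_⟩
  intro Γ _ _ N _ _ hN K S hS hK
  let f : root M N →+ N := ((nsmulAddMonoidHom M).comp (root M N).subtype).codRestrict N
    (fun x => mem_root.1 x.2)
  have hf : ∀ x, ((f x : N) : Γ) = M • (x : Γ) := fun x => rfl
  have hsurj : Function.Surjective f.rangeRestrict := f.rangeRestrict_surjective
  refine hC₂ (root M N) f.range f.rangeRestrict hsurj ?_ K S hS hK ?_
  · intro x hx
    have h1 : f x = 0 := congrArg Subtype.val hx
    have h2 : M • (x : Γ) = 0 := by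
      rw [← hf, h1]
      rfl
    exact Subtype.ext (by simpa using h2)
  · exact hC₁ N f.range hN _ _ (hS.image _)
      (Pool.Agent.R424.EX.image_doubling f.rangeRestrict hS hK)

/-- **Q1 from the intersection.** -/
theorem concl_inter (C : ℝ) (m : ℕ) (hm : 1 ≤ m) : ∃ C' : ℝ, ∀ (Γ : Type u) [AddCommGroup Γ]
    [DecidableEq Γ] (F : Set (AddSubgroup Γ)) [DecidableEq (sInf F : AddSubgroup Γ)],
    (∀ (K : ℝ) (S : Finset (sInf F : AddSubgroup Γ)), S.Nonempty →
      ((S + S).card : ℝ) ≤ K * S.card → Concl C K S) →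
    ∀ (K : ℝ) (A : Finset Γ), A.Nonempty → ((A + A).card : ℝ) ≤ K * A.card →
      (∀ G ∈ F, ∃ B : Finset Γ, B.card ≤ m ∧
        100 * ({a | a ∈ A ∧ ∀ b ∈ B, a - b ∉ G}.ncard : ℝ) ≤ A.card) → Concl C' K A := by
  classical
  obtain ⟨C₁, hC₁⟩ := root_concl.{u} C (mult m) (mult_pos m)
  obtain ⟨C₂, hC₂⟩ := transfer.{u} C₁ (10 ^ 9 * m)
  refine ⟨C₂, ?_⟩
  intro Γ _ _ F _ hN K A hA hK hF
  have hK1 := one_le_K hA hK
  obtain ⟨g, -, hg⟩ := inter' hA hK hm F hF
  refine hC₂ Γ (root (mult m) (sInf F)) (hC₁ Γ (sInf F) hN) K A g hA hK (hg.trans ?_)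
  refine mul_le_mul_of_nonneg_right ?_ (Nat.cast_nonneg _)
  calc K ^ (10 ^ 9 * Real.log (2 * m)) ≤ K ^ (((10 ^ 9 * m : ℕ)) : ℝ) := by
        refine Real.rpow_le_rpow_of_exponent_le hK1 ?_
        push_cast
        have := log_le_self hm
        linarith
    _ = K ^ (10 ^ 9 * m) := Real.rpow_natCast _ _

/-- **The number of the cosets has to be exponential in `m`.** -/
theorem sharp (m : ℕ) : ∃ (P : ℕ) (F : Set (AddSubgroup (ZMod P)))
    (A : Finset (ZMod P)), A.Nonempty ∧ (A + A).card ≤ 2 * A.card ∧ sInf F = ⊥ ∧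
      (∀ G ∈ F, G.index ≠ 0 ∧ G.index ≤ m) ∧
      ∀ (H : AddSubgroup (ZMod P)) (T : Finset (ZMod P)), Nat.card H ≤ A.card →
        (∀ a ∈ A, ∃ t ∈ T, a - t ∈ H) → 2 ^ m ≤ (m + 1) * (T.card + 1) ^ 2 := by
  obtain ⟨A, hA, hAA, hlow⟩ := Pool.Agent.TH404.Tor.lower (Nat.lcmUpto m) (Nat.lcmUpto_pos m)
  have hne : NeZero (Nat.lcmUpto m) := ⟨(Nat.lcmUpto_pos m).ne'⟩
  have hdvd : ∀ n : Finset.Icc 1 m, (n : ℕ) ∣ Nat.lcmUpto m := fun n =>
    Finset.dvd_lcm (f := id) n.2
  refine ⟨Nat.lcmUpto m, Set.range fun n : Finset.Icc 1 m =>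
    (ZMod.castHom (hdvd n) (ZMod n)).toAddMonoidHom.ker, A, hA, hAA, ?_, ?_, ?_⟩
  · rw [eq_bot_iff]
    intro x hx
    rw [AddSubgroup.mem_sInf] at hx
    rw [AddSubgroup.mem_bot]
    have h1 : Nat.lcmUpto m ∣ x.val := by
      refine Finset.lcm_dvd fun n hn => ?_
      have h2 : ZMod.castHom (hdvd ⟨n, hn⟩) (ZMod n) x = 0 := hx _ ⟨⟨n, hn⟩, rfl⟩
      have h3 : ((x.val : ℕ) : ZMod n) = 0 := by
        rw [← h2]
        conv_rhs => rw [← ZMod.natCast_zmod_val x]
        rw [map_natCast]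
      exact (ZMod.natCast_eq_zero_iff _ _).1 h3
    have h2 : x.val < Nat.lcmUpto m := ZMod.val_lt x
    have h3 : x.val = 0 := Nat.eq_zero_of_dvd_of_lt h1 h2
    exact (ZMod.val_eq_zero x).1 h3
  · rintro _ ⟨n, rfl⟩
    have hn := Finset.mem_Icc.1 n.2
    have hnz : NeZero (n : ℕ) := ⟨by omega⟩
    rw [AddSubgroup.index_ker]
    have h1 : Nat.card (ZMod.castHom (hdvd n) (ZMod n)).toAddMonoidHom.range ≤ Nat.card (ZMod n) :=
      Nat.card_le_card_of_injective _ Subtype.val_injective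
    rw [Nat.card_zmod] at h1
    exact ⟨Nat.card_pos.ne', h1.trans hn.2⟩
  · intro H T hH hcov
    have h1 := hlow H T hH hcov
    have h2 : Nat.lcmUpto m < (T.card + 1) ^ 2 := by
      have h3 := Nat.lt_succ_sqrt (Nat.lcmUpto m)
      calc Nat.lcmUpto m < (Nat.sqrt (Nat.lcmUpto m) + 1) * (Nat.sqrt (Nat.lcmUpto m) + 1) := h3
        _ ≤ (T.card + 1) * (T.card + 1) := Nat.mul_le_mul (by omega) (by omega)
        _ = (T.card + 1) ^ 2 := (sq _).symm
    exact (Chebyshev.two_pow_le_mul_lcmUpto m).trans (Nat.mul_le_mul_left _ h2.le)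

/-- **The exponent has to grow with `log m`.** -/
theorem sharp_log (m n : ℕ) : ∃ (F : Set (AddSubgroup (Fin n → ℤ))) (A : Finset (Fin n → ℤ)),
    (A + A).card ≤ 2 ^ n * A.card ∧ A.card = m ^ n ∧
      (∀ G ∈ F, ∃ B : Finset (Fin n → ℤ), B.card ≤ m ∧ ∀ a ∈ A, ∃ b ∈ B, a - b ∈ G) ∧
      ∀ (M : ℕ) (T : Finset (Fin n → ℤ)), 0 < M →
        (∀ a ∈ A, ∃ t ∈ T, M • (a - t) ∈ sInf F) → m ^ n ≤ T.card := by
  classical
  obtain ⟨A, hA⟩ : ∃ A : Finset (Fin n → ℤ),
    A = Fintype.piFinset (fun _ : Fin n => Finset.Ico (0 : ℤ) m) := ⟨_, rfl⟩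
  have hcard : A.card = m ^ n := by
    rw [hA, Fintype.card_piFinset]
    simp
  have hmem : ∀ a, a ∈ A ↔ ∀ i, 0 ≤ a i ∧ a i < m := by
    intro a
    rw [hA, Fintype.mem_piFinset]
    exact forall_congr' fun i => Finset.mem_Ico
  refine ⟨Set.range fun i => (Pi.evalAddMonoidHom (fun _ : Fin n => ℤ) i).ker, A, ?_, hcard, ?_, ?_⟩
  · have h1 : A + A ⊆ Fintype.piFinset (fun _ : Fin n => Finset.Ico (0 : ℤ) (2 * m)) := by
      intro z hz
      obtain ⟨a, ha, b, hb, rfl⟩ := mem_add.1 hz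
      rw [hmem] at ha hb
      rw [Fintype.mem_piFinset]
      intro i
      rw [Finset.mem_Ico, Pi.add_apply]
      have := ha i
      have := hb i
      constructor <;> omega
    have h2 := card_le_card h1
    rw [Fintype.card_piFinset] at h2
    rw [hcard, ← mul_pow]
    refine h2.trans (le_of_eq ?_)
    have h3 : (Finset.Ico (0 : ℤ) (2 * m)).card = 2 * m := by
      rw [Int.card_Ico]
      omega
    rw [prod_const, h3, card_univ, Fintype.card_fin]
  · rintro _ ⟨i, rfl⟩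
    refine ⟨(Finset.Ico (0 : ℤ) m).image (fun c => Pi.single i c), ?_, ?_⟩
    · refine card_image_le.trans ?_
      rw [Int.card_Ico]
      omega
    · intro a ha
      refine ⟨Pi.single i (a i), mem_image_of_mem _ (Finset.mem_Ico.2 ((hmem a).1 ha i)), ?_⟩
      show a i - (Pi.single i (a i) : Fin n → ℤ) i = 0
      rw [Pi.single_eq_same, sub_self]
  · intro M T hM hcov
    rw [← hcard]
    refine card_le_card fun a ha => ?_
    obtain ⟨t, ht, h1⟩ := hcov a ha
    have h2 : a = t := by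
      funext i
      rw [AddSubgroup.mem_sInf] at h1
      have h3 : (M • (a - t)) i = 0 := h1 _ ⟨i, rfl⟩
      rw [Pi.smul_apply, Pi.sub_apply, smul_eq_zero] at h3
      rcases h3 with h3 | h3
      · omega
      · exact sub_eq_zero.1 h3
    rw [h2]
    exact ht

end Pool.Agent.Run7.h127.FV
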