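import Pool.Agent.Run7.h127.FV.Struct
import Pool.Agent.Y359.PE.Step

/-!
# The law of a function on a finite set
-/

set_option autoImplicit false
set_option linter.unusedSectionVars false

namespace Pool.Agent.Run7.h127.FV

open Finset H112
open Pool.Agent.Y359.PE (h fc cl mem_cl fc_posR fc_pos fc_le fc_congr h_nonneg)
open scoped Classical

variable {α β : Type*} {V : Type*} [AddCommGroup V]

/-- the law of `a` for a uniform element of `S` -/
noncomputable def lw (S : Finset α) (a : α → V) : AddMonoidAlgebra ℝ V :=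
  AddMonoidAlgebra.ofCoeff ((unif S).mapDomain a)

omit [AddCommGroup V] in
lemma lw_coeff (S : Finset α) (a : α → V) : (lw S a).coeff = (unif S).mapDomain a := rfl

omit [AddCommGroup V] in
lemma unif_apply (S : Finset α) (x : α) : unif S x = if x ∈ S then (S.card : ℝ)⁻¹ else 0 := by
  unfold unif
  simp [Finsupp.onFinset_apply]

omit [AddCommGroup V] in
lemma lw_apply (S : Finset α) (a : α → V) (v : V) :
    (lw S a).coeff v = ((S.filter fun s => a s = v).card : ℝ) / S.card := by
  rw [lw_coeff, shannon_mapDomain_apply]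
  have e1 : ∑ x ∈ (unif S).support, (if a x = v then unif S x else 0) =
      ∑ x ∈ S, (if a x = v then unif S x else 0) := by
    refine sum_subset support_unif fun x _ hx => ?_
    rw [Finsupp.notMem_support_iff.1 hx]
    simp
  rw [e1, ← sum_filter]
  have e2 : ∀ x ∈ S.filter (fun x => a x = v), unif S x = (S.card : ℝ)⁻¹ := by
    intro x hx
    rw [unif_apply, if_pos (mem_filter.1 hx).1]
  rw [sum_congr rfl e2, sum_const, nsmul_eq_mul, div_eq_mul_inv]

lemma law_lw {S : Finset α} (hS : S.Nonempty) (a : α → V) : Law (lw S a) :=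
  isLaw_mapDomain (isLaw_unif hS) a

lemma H_lw {S : Finset α} (hS : S.Nonempty) (a : α → V) : H (lw S a) = h S a := by
  have hN : (0 : ℝ) < S.card := by exact_mod_cast card_pos.2 hS
  unfold H
  rw [lw_coeff, shannon_ent_mapDomain]
  have e1 : ∑ o ∈ (unif S).support, unif S o * (-Real.log (((unif S).mapDomain a) (a o))) =
      ∑ o ∈ S, unif S o * (-Real.log (((unif S).mapDomain a) (a o))) := by
    refine sum_subset support_unif fun x _ hx => ?_
    rw [Finsupp.notMem_support_iff.1 hx, zero_mul]
  rw [e1]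
  unfold h
  rw [sum_div]
  refine sum_congr rfl fun x hx => ?_
  have e2 : ((unif S).mapDomain a) (a x) = (fc S a x : ℝ) / S.card := by
    rw [← lw_coeff, lw_apply]
    rfl
  have e3 := fc_posR (f := a) hx
  rw [unif_apply, if_pos hx, e2, Real.log_div e3.ne' hN.ne']
  field_simp
  ring

lemma lw_mul {S : Finset α} {S' : Finset β} (a : α → V) (b : β → V) :
    lw S a * lw S' b = lw (S ×ˢ S') (fun x => a x.1 + b x.2) := by
  have e1 : (lw S a * lw S' b).coeff = (lw (S ×ˢ S') (fun x => a x.1 + b x.2)).coeff := by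
    rw [coeff_mul, lw_coeff, lw_coeff, lw_coeff, ← Conv_mapDomain_prodLaw, ← Finsupp.mapDomain_comp]
    have e2 : prodLaw (unif S) (unif S') = unif (S ×ˢ S') := by
      ext ⟨x, y⟩
      rw [prodLaw_apply, unif_apply, unif_apply, unif_apply, card_product]
      by_cases h1 : x ∈ S <;> by_cases h2 : y ∈ S' <;> simp [mem_product, h1, h2, mul_comm]
    rw [e2]
    rfl
  ext v
  rw [e1]

lemma H_lw_mul {S : Finset α} {S' : Finset β} (hS : S.Nonempty) (hS' : S'.Nonempty)
    (a : α → V) (b : β → V) :
    H (lw S a * lw S' b) = h (S ×ˢ S') (fun x => a x.1 + b x.2) := by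
  rw [lw_mul, H_lw (hS.product hS')]

end Pool.Agent.Run7.h127.FV
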