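import Pool.Agent.Run7.h127.FV.Bridge

/-!
# Laws which are almost uniform on a coset of a finite subgroup
-/

set_option autoImplicit false
set_option linter.unusedSectionVars false

namespace Pool.Agent.Run7.h127.FV

open Finset H112
open Pool.Agent.Y359.PE (h fc cl mem_cl fc_posR fc_pos fc_le fc_congr h_nonneg cell_left cell_right
  cell_main nz)
open scoped Classical

variable {α β : Type*} {V : Type*} [AddCommGroup V]

/-- An almost invariant function is almost constant on a coset. -/
lemma l1_coset {p : AddMonoidAlgebra ℝ V} {K : AddSubgroup V} {c : Finset V} {v₀ : V}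
    (hc : ∀ v, v ∈ c ↔ v - v₀ ∈ K) {t : ℝ} (hn : ∀ g ∈ K, Near p g t) :
    ∑ v ∈ c, |p.coeff v - (∑ u ∈ c, p.coeff u) / c.card| ≤ t := by
  have hv₀ : v₀ ∈ c := (hc v₀).2 (by rw [sub_self]; exact K.zero_mem)
  have hcp : (0 : ℝ) < c.card := by exact_mod_cast card_pos.2 ⟨v₀, hv₀⟩
  have hre : ∀ v ∈ c, ∀ f : V → ℝ, ∑ u ∈ c, f u = ∑ k ∈ c, f (v - (k - v₀)) := by
    intro v hv f
    refine sum_bij' (fun u _ => v - (u - v₀)) (fun k _ => v - (k - v₀)) ?_ ?_ ?_ ?_ ?_
    · intro u hu
      rw [hc] at hu hv ⊢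
      have : v - (u - v₀) - v₀ = (v - v₀) - (u - v₀) := by abel
      rw [this]
      exact K.sub_mem hv hu
    · intro u hu
      rw [hc] at hu hv ⊢
      have : v - (u - v₀) - v₀ = (v - v₀) - (u - v₀) := by abel
      rw [this]
      exact K.sub_mem hv hu
    · intro u _
      abel
    · intro u _
      abel
    · intro u _
      congr 1
      abel
  have h1 : ∀ v ∈ c, |p.coeff v - (∑ u ∈ c, p.coeff u) / c.card| ≤
      (∑ k ∈ c, |p.coeff (v - (k - v₀)) - p.coeff v|) / c.card := by
    intro v hv
    rw [hre v hv]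
    have e1 : p.coeff v - (∑ k ∈ c, p.coeff (v - (k - v₀))) / c.card =
        -((∑ k ∈ c, (p.coeff (v - (k - v₀)) - p.coeff v)) / c.card) := by
      rw [sum_sub_distrib, sum_const, nsmul_eq_mul]
      field_simp
      ring
    rw [e1, abs_neg, abs_div, abs_of_pos hcp]
    exact div_le_div_of_nonneg_right (abs_sum_le_sum_abs _ _) hcp.le
  refine (sum_le_sum h1).trans ?_
  rw [← sum_div, sum_comm, div_le_iff₀ hcp]
  calc ∑ k ∈ c, ∑ v ∈ c, |p.coeff (v - (k - v₀)) - p.coeff v| ≤ ∑ k ∈ c, t :=
        sum_le_sum fun k hk => hn _ ((hc k).1 hk) c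
    _ = t * c.card := by
        rw [sum_const, nsmul_eq_mul, mul_comm]

/-- A set of large mass contains most of the coset. -/
lemma many_in {p : AddMonoidAlgebra ℝ V} (hp : Law p) {K : AddSubgroup V} {c : Finset V} {v₀ : V}
    (hc : ∀ v, v ∈ c ↔ v - v₀ ∈ K) {t ζ b : ℝ} (hn : ∀ g ∈ K, Near p g t)
    (hw : 1 - ζ ≤ ∑ u ∈ c, p.coeff u) {B : Finset V} (hB : b ≤ ∑ v ∈ B, p.coeff v) :
    (b - ζ - t) * c.card ≤ (B ∩ c).card := by
  have hv₀ : v₀ ∈ c := (hc v₀).2 (by rw [sub_self]; exact K.zero_mem)
  have hcp : (0 : ℝ) < c.card := by exact_mod_cast card_pos.2 ⟨v₀, hv₀⟩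
  have h1 := l1_coset hc hn
  set w := ∑ u ∈ c, p.coeff u with hwd
  have h2 : ∑ v ∈ B \ c, p.coeff v ≤ ζ := by
    have h3 := law_sum_le_one hp (B \ c ∪ c)
    rw [sum_union sdiff_disjoint] at h3
    linarith
  have h3 : ∑ v ∈ B, p.coeff v = ∑ v ∈ B \ c, p.coeff v + ∑ v ∈ B ∩ c, p.coeff v := by
    rw [← sum_sdiff (s₁ := B ∩ c) (s₂ := B) inter_subset_left, sdiff_inter_self_left]
  have hw1 : w ≤ 1 := law_sum_le_one hp c
  have h4 : ∑ v ∈ B ∩ c, p.coeff v ≤ (B ∩ c).card / c.card + t := by
    have h5 : ∑ v ∈ B ∩ c, p.coeff v ≤ ∑ v ∈ B ∩ c, (1 / c.card + |p.coeff v - w / c.card|) := by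
      refine sum_le_sum fun v _ => ?_
      have h6 := le_abs_self (p.coeff v - w / c.card)
      have h7 : w / c.card ≤ 1 / c.card := div_le_div_of_nonneg_right hw1 hcp.le
      linarith
    refine h5.trans ?_
    rw [sum_add_distrib, sum_const, nsmul_eq_mul, mul_one_div]
    have h6 : ∑ v ∈ B ∩ c, |p.coeff v - w / c.card| ≤ ∑ v ∈ c, |p.coeff v - w / c.card| :=
      sum_le_sum_of_subset_of_nonneg inter_subset_right fun v _ _ => abs_nonneg _
    linarith
  have h5 : b - ζ - t ≤ (B ∩ c).card / c.card := by linarith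
  rwa [le_div_iff₀ hcp] at h5

/-- A lower bound for the entropy of a function which is almost constant on a finite set. -/
lemma ent_lower {c : Finset V} (hcne : c.Nonempty) {n g : V → ℝ} {G t ζ q : ℝ}
    (hn0 : ∀ v ∈ c, 0 ≤ n v) (hng : ∀ v ∈ c, n v ≤ g v)
    (h1 : ∑ v ∈ c, |g v - (∑ u ∈ c, g u) / c.card| ≤ t * G)
    (h2 : (1 - ζ) * G ≤ ∑ u ∈ c, g u) (h3 : ∑ u ∈ c, g u - ∑ u ∈ c, n u ≤ q * G) :
    G * ((1 - ζ - q) * Real.log c.card - (t + q) * (Real.log c.card + 1)) ≤
      ∑ v ∈ c, n v * (Real.log (∑ u ∈ c, n u) - Real.log (n v)) := by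
  have hcp : (0 : ℝ) < c.card := by exact_mod_cast card_pos.2 hcne
  have hlc : 0 ≤ Real.log c.card := Real.log_natCast_nonneg _
  set N := ∑ u ∈ c, n u with hN
  set W := ∑ u ∈ c, g u with hW
  have hnN : ∀ v ∈ c, n v ≤ N := fun v hv => single_le_sum hn0 hv
  have hNW : N ≤ W := sum_le_sum hng
  have key : ∀ v ∈ c, n v * Real.log c.card -
      (|g v - W / c.card| + (W - N) / c.card) * (Real.log c.card + 1) ≤
      n v * (Real.log N - Real.log (n v)) := by
    intro v hv
    have hpos : 0 ≤ |g v - W / c.card| + (W - N) / c.card := by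
      have := abs_nonneg (g v - W / c.card)
      have : 0 ≤ (W - N) / c.card := div_nonneg (by linarith) hcp.le
      linarith
    rcases (hn0 v hv).eq_or_lt with h0 | h0
    · rw [← h0, zero_mul, zero_mul]
      nlinarith
    have hNp : 0 < N := lt_of_lt_of_le h0 (hnN v hv)
    have hlog : Real.log (c.card * n v / N) = Real.log c.card + Real.log (n v) - Real.log N := by
      rw [Real.log_div (by positivity) hNp.ne', Real.log_mul hcp.ne' h0.ne']
    have hgoal : n v * Real.log (c.card * n v / N) ≤
        (|g v - W / c.card| + (W - N) / c.card) * (Real.log c.card + 1) := by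
      rcases le_or_gt (n v) (N / c.card) with h4 | h4
      · have h5 : c.card * n v / N ≤ 1 := by
          rw [div_le_one hNp]
          rw [le_div_iff₀ hcp] at h4
          linarith
        have h6 : Real.log (c.card * n v / N) ≤ 0 := Real.log_nonpos (by positivity) h5
        nlinarith
      · have h5 : Real.log (c.card * n v / N) ≤ c.card * n v / N - 1 :=
          Real.log_le_sub_one_of_pos (by positivity)
        have h6 : Real.log (c.card * n v / N) ≤ Real.log c.card := by
          refine Real.log_le_log (by positivity) ?_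
          rw [div_le_iff₀ hNp]
          exact mul_le_mul_of_nonneg_left (hnN v hv) hcp.le
        have h7 : n v * Real.log (c.card * n v / N) ≤
            (n v - N / c.card) * (Real.log c.card + 1) := by
          have e1 : n v * Real.log (c.card * n v / N) =
              (n v - N / c.card) * Real.log (c.card * n v / N) +
              N / c.card * Real.log (c.card * n v / N) := by ring
          have e2 : N / c.card * Real.log (c.card * n v / N) ≤ N / c.card *
              (c.card * n v / N - 1) := mul_le_mul_of_nonneg_left h5 (by positivity)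
          have e3 : N / c.card * (c.card * n v / N - 1) = n v - N / c.card := by
            field_simp
          have e4 : (n v - N / c.card) * Real.log (c.card * n v / N) ≤
              (n v - N / c.card) * Real.log c.card :=
            mul_le_mul_of_nonneg_left h6 (by linarith)
          rw [e1]
          linarith
        refine h7.trans (mul_le_mul_of_nonneg_right ?_ (by linarith))
        have h8 := le_abs_self (g v - W / c.card)
        have h9 := hng v hv
        rw [sub_div]
        linarith
    rw [hlog] at hgoal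
    nlinarith
  refine le_trans ?_ (sum_le_sum key)
  rw [sum_sub_distrib, ← sum_mul, ← sum_mul, sum_add_distrib, sum_const, nsmul_eq_mul,
    mul_div_cancel₀ _ hcp.ne', ← hN]
  have h5 : (1 - ζ - q) * G ≤ N := by linarith
  have h6 : ∑ v ∈ c, |g v - W / c.card| + (W - N) ≤ (t + q) * G := by linarith
  have h7 := mul_le_mul_of_nonneg_right h5 hlc
  have h8 := mul_le_mul_of_nonneg_right h6 (show 0 ≤ Real.log c.card + 1 by linarith)
  linarith

end Pool.Agent.Run7.h127.FV
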