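import Pool.Agent.Run7.h127.FV.Large

/-!
# The drop of the entropy modulo a finite subgroup
-/

set_option autoImplicit false
set_option linter.unusedSectionVars false

namespace Pool.Agent.Run7.h127.FV

open Finset H112
open Pool.Agent.Y359.PE (h fc cl mem_cl fc_posR fc_pos fc_le fc_congr h_nonneg cell_left cell_right
  cell_main nz h_congr h_const h_le_log submod chain avg_cl)
open scoped Classical

variable {α β γ δ : Type*} {V : Type*} [AddCommGroup V]

/-- `|E|` times the difference between the entropy of `x` on `E` and the entropy modulo `K` -/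
noncomputable def drop (E : Finset α) (x : α → V) (K : AddSubgroup V) : ℝ :=
  ∑ a ∈ E, (Real.log (fc E (fun a => (QuotientAddGroup.mk (x a) : V ⧸ K)) a) -
    Real.log (fc E x a))

lemma fc_mono {S : Finset α} {f : α → β} {g : α → γ} (hfg : ∀ y ∈ S, ∀ x ∈ S, g y = g x → f y = f x)
    {x : α} (hx : x ∈ S) : fc S g x ≤ fc S f x := by
  unfold fc
  refine card_le_card fun y hy => ?_
  rw [mem_cl] at hy ⊢
  exact ⟨hy.1, hfg y hy.1 x hx hy.2⟩

lemma drop_term_nonneg (E : Finset α) (x : α → V) (K : AddSubgroup V) {a : α} (ha : a ∈ E) :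
    0 ≤ Real.log (fc E (fun a => (QuotientAddGroup.mk (x a) : V ⧸ K)) a) -
    Real.log (fc E x a) := by
  have h1 : fc E x a ≤ fc E (fun a => (QuotientAddGroup.mk (x a) : V ⧸ K)) a :=
    fc_mono (fun y _ z _ h => by simp only [h]) ha
  have h2 : (fc E x a : ℝ) ≤ fc E (fun a => (QuotientAddGroup.mk (x a) : V ⧸ K)) a := by
    exact_mod_cast h1
  have := Real.log_le_log (fc_posR ha) h2
  linarith

lemma drop_nonneg (E : Finset α) (x : α → V) (K : AddSubgroup V) : 0 ≤ drop E x K :=
  sum_nonneg fun _ ha => drop_term_nonneg E x K ha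

lemma drop_eq (E : Finset α) (x : α → V) (K : AddSubgroup V) :
    drop E x K = E.card * (h E x - h E (fun a => (QuotientAddGroup.mk (x a) : V ⧸ K))) := by
  rcases E.eq_empty_or_nonempty with h0 | h0
  · rw [h0]
    simp [drop]
  have hN : (0 : ℝ) < E.card := by exact_mod_cast card_pos.2 h0
  unfold drop h
  rw [← sub_div, mul_div_cancel₀ _ hN.ne', ← sum_sub_distrib]
  refine sum_congr rfl fun a _ => ?_
  ring

/-- the classes of `F` in `A`, cut with `E` -/
noncomputable def cut (A : Finset α) (F : α → β) (E : Finset α) (u : α) : Finset α :=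
  (cl A F u).filter fun a => a ∈ E

lemma mem_cut {A : Finset α} {F : α → β} {E : Finset α} {u a : α} :
    a ∈ cut A F E u ↔ (a ∈ A ∧ F a = F u) ∧ a ∈ E := by
  unfold cut
  rw [mem_filter, mem_cl]

/-- Conditioning on `F` makes the drop smaller. -/
lemma drop_ge (A : Finset α) (F : α → β) (E : Finset α) (hEA : E ⊆ A) (x : α → V)
    (K : AddSubgroup V) :
    ∑ u ∈ A, drop (cut A F E u) x K / fc A F u ≤ drop E x K := by
  set mk : α → V ⧸ K := fun a => QuotientAddGroup.mk (x a) with hmk
  set φ : α → ℝ := fun a => if a ∈ E then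
    Real.log (fc E (fun a => (F a, mk a)) a) - Real.log (fc E (fun a => (F a, x a)) a) else 0 with hφ
  have e1 : ∀ u ∈ A, drop (cut A F E u) x K = ∑ y ∈ cl A F u, φ y := by
    intro u _
    unfold drop
    rw [cut, sum_filter]
    refine sum_congr rfl fun y hy => ?_
    rw [hφ]
    by_cases hyE : y ∈ E
    · simp only [hyE, if_true]
      rw [mem_cl] at hy
      have e2 : ∀ {γ : Type _} (g : α → γ), fc ((cl A F u).filter fun a => a ∈ E) g y =
          fc E (fun a => (F a, g a)) y := by
        intro γ g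
        unfold fc
        congr 1
        ext z
        rw [mem_cl, mem_cl, mem_filter, mem_cl, Prod.mk.injEq, hy.2]
        constructor
        · rintro ⟨⟨⟨h1, h2⟩, h3⟩, h4⟩
          exact ⟨h3, h2, h4⟩
        · rintro ⟨h1, h2, h3⟩
          exact ⟨⟨⟨hEA h1, h2⟩, h1⟩, h3⟩
      rw [e2 x, e2 (fun a => (QuotientAddGroup.mk (x a) : V ⧸ K))]
    · simp only [hyE, if_false]
  rw [sum_congr rfl fun u hu => by rw [e1 u hu], avg_cl A F φ]
  have e2 : ∑ y ∈ A, φ y = ∑ y ∈ E, (Real.log (fc E (fun a => (F a, mk a)) y) -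
      Real.log (fc E (fun a => (F a, x a)) y)) := by
    rw [hφ, ← sum_filter]
    refine sum_congr ?_ fun _ _ => rfl
    ext y
    rw [mem_filter]
    exact ⟨fun h1 => h1.2, fun h1 => ⟨hEA h1, h1⟩⟩
  rw [e2]
  rcases E.eq_empty_or_nonempty with h0 | h0
  · rw [h0]
    simp [drop]
  have hN : (0 : ℝ) < E.card := by exact_mod_cast card_pos.2 h0
  have e3 : ∑ y ∈ E, (Real.log (fc E (fun a => (F a, mk a)) y) -
      Real.log (fc E (fun a => (F a, x a)) y)) =
      E.card * (h E (fun a => (F a, x a)) - h E (fun a => (F a, mk a))) := by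
    unfold h
    rw [← sub_div, mul_div_cancel₀ _ hN.ne', ← sum_sub_distrib]
    refine sum_congr rfl fun a _ => ?_
    ring
  rw [e3, drop_eq]
  refine mul_le_mul_of_nonneg_left ?_ hN.le
  have h1 := submod E mk (fun a => (F a, mk a)) x (fun a _ b _ hab => by
    rw [Prod.mk.injEq] at hab
    exact hab.2)
  have h2 : h E (fun a => ((F a, mk a), x a)) = h E (fun a => (F a, x a)) := by
    refine h_congr fun a _ b _ => ?_
    simp only [Prod.mk.injEq]
    constructor
    · rintro ⟨⟨h1, _⟩, h3⟩
      exact ⟨h1, h3⟩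
    · rintro ⟨h1, h3⟩
      exact ⟨⟨h1, by rw [hmk]; simp only [h3]⟩, h3⟩
  have h3 : h E (fun a => (mk a, x a)) = h E x := by
    refine h_congr fun a _ b _ => ?_
    simp only [Prod.mk.injEq]
    constructor
    · rintro ⟨_, h3⟩
      exact h3
    · intro h3
      exact ⟨by rw [hmk]; simp only [h3], h3⟩
  rw [h2, h3] at h1
  exact h1

lemma cosetF (K : AddSubgroup V) [hK : Finite K] (v₀ : V) :
    ∃ c : Finset V, (∀ v, v ∈ c ↔ v - v₀ ∈ K) ∧ c.card = Nat.card K := by
  have hf : (K : Set V).Finite := hK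
  refine ⟨hf.toFinset.image (fun k => v₀ + k), fun v => ?_, ?_⟩
  · rw [mem_image]
    constructor
    · rintro ⟨k, hk, rfl⟩
      rw [add_sub_cancel_left]
      simpa using hk
    · intro hv
      exact ⟨v - v₀, by simpa using hv, by abel⟩
  · rw [card_image_of_injective _ (add_right_injective v₀), ← Set.ncard_eq_toFinset_card _ hf]
    rfl

lemma card_fiber (S : Finset α) (a : α → V) (B : Finset V) :
    (S.filter fun s => a s ∈ B).card = ∑ v ∈ B, (S.filter fun s => a s = v).card := by
  rw [card_eq_sum_card_fiberwise (s := S.filter fun s => a s ∈ B) (f := a) (t := B)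
    (fun s hs => (mem_filter.1 (mem_coe.1 hs)).2)]
  refine sum_congr rfl fun v hv => ?_
  congr 1
  ext s
  rw [mem_filter, mem_filter, mem_filter]
  constructor
  · rintro ⟨⟨h1, _⟩, h3⟩
    exact ⟨h1, h3⟩
  · rintro ⟨h1, h3⟩
    exact ⟨⟨h1, h3 ▸ hv⟩, h3⟩

lemma sum_lw (S : Finset α) (a : α → V) (B : Finset V) :
    ∑ v ∈ B, (lw S a).coeff v = ((S.filter fun s => a s ∈ B).card : ℝ) / S.card := by
  rw [card_fiber, Nat.cast_sum, sum_div]
  exact sum_congr rfl fun v _ => lw_apply S a v

/-- `a` is concentrated on a coset of `K` and almost invariant under `K`. -/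
structure Conc (K : AddSubgroup V) (S : Finset α) (a : α → V) : Prop where
  near : ∀ g ∈ K, Near (lw S a) g (1 / 25)
  conc : ∃ (v₀ : V) (c : Finset V), (∀ v, v ∈ c ↔ v - v₀ ∈ K) ∧ c.card = Nat.card K ∧
    999 / 1000 * (S.card : ℝ) ≤ (S.filter fun s => a s ∈ c).card

/-- two cells whose sum has almost no more entropy -/
lemma struct_cell {S : Finset α} {S' : Finset β} (hS : S.Nonempty) (hS' : S'.Nonempty)
    (a : α → V) (b : β → V)
    (hk : h (S ×ˢ S') (fun x => a x.1 + b x.2) - h S a / 2 - h S' b / 2 ≤ 1 / 20000000) :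
    ∃ K : AddSubgroup V, Finite K ∧ (∀ g, g ∈ K ↔ Near (lw S a) g (1 / 25)) ∧ Conc K S' b := by
  have hp := law_lw hS a
  have hq := law_lw hS' b
  have h1 := cell_left S S' hS' a b
  have h2 := cell_right S S' hS a b
  have hsq : Real.sqrt (1 / 10000) = 1 / 100 := by
    rw [show (1 / 10000 : ℝ) = (1 / 100) ^ 2 by norm_num, Real.sqrt_sq (by norm_num)]
  obtain ⟨K, hfin, hKp, hKq, -, x₀, T, hT, hmass⟩ := struct hp hq (ω := 1 / 10000)
    (ζ := 1 / 1000) (by norm_num) (by norm_num) (by rw [hsq]; norm_num)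
    (by rw [H_lw_mul hS hS', H_lw hS']; linarith) (by rw [H_lw_mul hS hS', H_lw hS]; linarith)
  have e1 : 4 * Real.sqrt (1 / 10000) = 1 / 25 := by rw [hsq]; norm_num
  rw [e1] at hKp hKq
  refine ⟨K, hfin, hKp, ⟨fun g hg => (hKq g).1 hg, ?_⟩⟩
  obtain ⟨c, hc, hcc⟩ := cosetF K x₀
  refine ⟨x₀, c, hc, hcc, ?_⟩
  have hN : (0 : ℝ) < S'.card := by exact_mod_cast card_pos.2 hS'
  have h3 : ∑ v ∈ T, (lw S' b).coeff v ≤ ∑ v ∈ c, (lw S' b).coeff v :=
    sum_le_sum_of_subset_of_nonneg (fun v hv => (hc v).2 (hT v hv)) fun v _ _ => hq.1 v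
  rw [sum_lw S' b c] at h3
  have h4 : 999 / 1000 ≤ ((S'.filter fun s => b s ∈ c).card : ℝ) / S'.card := by
    refine le_trans ?_ h3
    refine le_trans ?_ hmass
    norm_num
  rwa [le_div_iff₀ hN] at h4

/-- the subgroup is not larger than a set which contains most of the mass -/
lemma Conc.card_le {K : AddSubgroup V} {S : Finset α} (hS : S.Nonempty) {a : α → V}
    (hK : Conc K S a) {B : Finset V}
    (hB : 7 / 8 * (S.card : ℝ) ≤ (S.filter fun s => a s ∈ B).card) :
    3 / 4 * (Nat.card K : ℝ) ≤ B.card := by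
  obtain ⟨v₀, c, hc, hcc, hm⟩ := hK.conc
  have hN : (0 : ℝ) < S.card := by exact_mod_cast card_pos.2 hS
  have h1 := many_in (law_lw hS a) hc hK.near (ζ := 1 / 1000) (b := 7 / 8) (B := B) (by
    rw [sum_lw, le_div_iff₀ hN]
    refine le_trans ?_ hm
    refine mul_le_mul_of_nonneg_right (by norm_num) hN.le) (by
    rw [sum_lw, le_div_iff₀ hN]
    exact hB)
  have h2 : ((B ∩ c).card : ℝ) ≤ B.card := by
    exact_mod_cast card_le_card inter_subset_left
  rw [← hcc]
  have h3 : (0 : ℝ) ≤ c.card := Nat.cast_nonneg _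
  nlinarith

/-- the drop on a cell which is concentrated on a coset of `K` -/
lemma Conc.le_drop {K : AddSubgroup V} [Finite K] (hK0 : K ≠ ⊥) {S : Finset α} (hS : S.Nonempty)
    {a : α → V} (hK : Conc K S a) (E : Finset α) :
    Real.log (Nat.card K) * (9 / 10 * S.card - 7 / 2 * (S.filter fun s => s ∉ E).card) ≤
      drop (S.filter fun s => s ∈ E) a K := by
  obtain ⟨v₀, c, hc, hcc, hm⟩ := hK.conc
  have hN : (0 : ℝ) < S.card := by exact_mod_cast card_pos.2 hS
  have hv₀ : v₀ ∈ c := (hc v₀).2 (by rw [sub_self]; exact K.zero_mem)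
  set S' := S.filter (fun s => s ∈ E) with hS'
  set n : V → ℝ := fun v => ((S'.filter fun s => a s = v).card : ℝ) with hn
  set g : V → ℝ := fun v => ((S.filter fun s => a s = v).card : ℝ) with hg
  have hg' : ∀ v, g v = S.card * (lw S a).coeff v := by
    intro v
    rw [lw_apply, mul_div_cancel₀ _ hN.ne']
  have hsumg : ∑ v ∈ c, g v = (S.filter fun s => a s ∈ c).card := by
    rw [sum_congr rfl fun v _ => hg' v, ← mul_sum, sum_lw, mul_div_cancel₀ _ hN.ne']
  have hsumn : ∑ v ∈ c, n v = (S'.filter fun s => a s ∈ c).card := by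
    rw [card_fiber, Nat.cast_sum]
  have hl1 : ∑ v ∈ c, |g v - (∑ u ∈ c, g u) / c.card| ≤ 1 / 25 * S.card := by
    have h1 := l1_coset hc hK.near
    have e1 : ∀ v ∈ c, |g v - (∑ u ∈ c, g u) / c.card| =
        S.card * |(lw S a).coeff v - (∑ u ∈ c, (lw S a).coeff u) / c.card| := by
      intro v _
      have e2 : (S.card : ℝ) * |(lw S a).coeff v - (∑ u ∈ c, (lw S a).coeff u) / c.card| =
          |S.card * ((lw S a).coeff v - (∑ u ∈ c, (lw S a).coeff u) / c.card)| := by
        rw [abs_mul, abs_of_pos hN]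
      rw [e2]
      congr 1
      rw [hg' v, sum_congr rfl fun v _ => hg' v, ← mul_sum]
      ring
    rw [sum_congr rfl e1, ← mul_sum]
    nlinarith
  set q : ℝ := ((S.filter fun s => s ∉ E).card : ℝ) / S.card with hq
  have hdiff : ∑ u ∈ c, g u - ∑ u ∈ c, n u ≤ q * S.card := by
    rw [hsumg, hsumn, hq, div_mul_cancel₀ _ hN.ne']
    have h1 : S.filter (fun s => a s ∈ c) ⊆ S'.filter (fun s => a s ∈ c) ∪
        S.filter (fun s => s ∉ E) := by
      intro s hs
      rw [mem_filter] at hs
      rw [mem_union, mem_filter, mem_filter, mem_filter]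
      by_cases h2 : s ∈ E
      · exact Or.inl ⟨⟨hs.1, h2⟩, hs.2⟩
      · exact Or.inr ⟨hs.1, h2⟩
    have h2 := (card_le_card h1).trans (card_union_le _ _)
    have h3 : ((S.filter (fun s => a s ∈ c)).card : ℝ) ≤
      (S'.filter (fun s => a s ∈ c)).card + (S.filter (fun s => s ∉ E)).card := by
      exact_mod_cast h2
    linarith
  have key := ent_lower (c := c) ⟨v₀, hv₀⟩ (n := n) (g := g) (G := S.card) (t := 1 / 25)
    (ζ := 1 / 1000) (q := q) (fun v _ => Nat.cast_nonneg _) (fun v _ => by
      have : (S'.filter fun s => a s = v).card ≤ (S.filter fun s => a s = v).card :=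
        card_le_card (filter_subset_filter _ (filter_subset _ _))
      show ((S'.filter fun s => a s = v).card : ℝ) ≤ (S.filter fun s => a s = v).card
      exact_mod_cast this) hl1 (by
      rw [hsumg]
      refine le_trans (le_of_eq ?_) hm
      norm_num) hdiff
  -- compare with the drop
  have hdrop : ∑ v ∈ c, n v * (Real.log (∑ u ∈ c, n u) - Real.log (n v)) ≤ drop S' a K := by
    have h1 : ∑ s ∈ S'.filter (fun s => a s ∈ c), (Real.log
        (fc S' (fun a_1 => (QuotientAddGroup.mk (a a_1) : V ⧸ K)) s) - Real.log (fc S' a s)) ≤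
        drop S' a K :=
      sum_le_sum_of_subset_of_nonneg (filter_subset _ _)
        fun s hs _ => drop_term_nonneg S' a K hs
    refine le_trans (le_of_eq ?_) h1
    rw [← sum_fiberwise_of_maps_to (s := S'.filter (fun s => a s ∈ c)) (t := c) (g := a)
      (fun s hs => (mem_filter.1 hs).2)]
    refine sum_congr rfl fun v hv => ?_
    have e1 : (S'.filter (fun s => a s ∈ c)).filter (fun s => a s = v) =
        S'.filter (fun s => a s = v) := by
      ext s
      constructor
      · intro hs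
        obtain ⟨h1, h3⟩ := mem_filter.1 hs
        exact mem_filter.2 ⟨(mem_filter.1 h1).1, h3⟩
      · intro hs
        obtain ⟨h1, h3⟩ := mem_filter.1 hs
        exact mem_filter.2 ⟨mem_filter.2 ⟨h1, by rw [h3]; exact hv⟩, h3⟩
    rw [e1]
    have e2 : ∀ s ∈ S'.filter (fun s => a s = v), (Real.log
        (fc S' (fun a_1 => (QuotientAddGroup.mk (a a_1) : V ⧸ K)) s) - Real.log (fc S' a s)) =
        Real.log (∑ u ∈ c, n u) - Real.log (n v) := by
      intro s hs
      rw [mem_filter] at hs
      have e3 : fc S' a s = (S'.filter fun s => a s = v).card := by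
        unfold fc cl
        rw [hs.2]
      have hsc : a s - v₀ ∈ K := by
        rw [hs.2]
        exact (hc v).1 hv
      have e4 : cl S' (fun a_1 => (QuotientAddGroup.mk (a a_1) : V ⧸ K)) s =
          S'.filter fun s => a s ∈ c := by
        ext z
        rw [mem_cl, QuotientAddGroup.eq]
        constructor
        · rintro ⟨hz, h3⟩
          refine mem_filter.2 ⟨hz, (hc _).2 ?_⟩
          have : a z - v₀ = (a s - v₀) - (-a z + a s) := by abel
          rw [this]
          exact K.sub_mem hsc h3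
        · intro hz
          obtain ⟨h3, h4⟩ := mem_filter.1 hz
          refine ⟨h3, ?_⟩
          have : -a z + a s = (a s - v₀) - (a z - v₀) := by abel
          rw [this]
          exact K.sub_mem hsc ((hc _).1 h4)
      have e5 : fc S' (fun a_1 => (QuotientAddGroup.mk (a a_1) : V ⧸ K)) s =
          (S'.filter fun s => a s ∈ c).card := by
        unfold fc
        rw [e4]
      rw [e3, e5, hsumn]
    rw [sum_congr rfl e2, sum_const, nsmul_eq_mul]
  refine le_trans ?_ (key.trans hdrop)
  rw [hcc]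
  -- numerics
  have hK2 : 2 ≤ Nat.card K := by
    have h1 : Nat.card K ≠ 1 := by
      rw [Ne, AddSubgroup.card_eq_one]
      exact hK0
    have h2 : 0 < Nat.card K := Nat.card_pos
    omega
  have hlog : Real.log 2 ≤ Real.log (Nat.card K) :=
    Real.log_le_log (by norm_num) (by exact_mod_cast hK2)
  have hl2 := Real.log_two_gt_d9
  set L := Real.log (Nat.card K) with hL
  have hL0 : 0.69 ≤ L := by norm_num at hl2 ⊢; linarith
  have hq0 : 0 ≤ q := by positivity
  have hq1 : S.card * q = (S.filter fun s => s ∉ E).card := by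
    rw [hq, mul_div_cancel₀ _ hN.ne']
  rw [← hq1]
  have h1 : (1 / 25 + q) * (L + 1) ≤ (1 / 25 + q) * (2.45 * L) := by
    refine mul_le_mul_of_nonneg_left ?_ (by linarith)
    norm_num at hL0 ⊢
    linarith
  have h2 : L * (9 / 10 - 7 / 2 * q) ≤
      (1 - 1 / 1000 - q) * L - (1 / 25 + q) * (L + 1) := by
    norm_num at hL0 h1 ⊢
    nlinarith
  have h3 := mul_le_mul_of_nonneg_left h2 hN.le
  nlinarith

end Pool.Agent.Run7.h127.FV
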