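import Pool.Agent.Run7.h127.FV.Cell

/-!
# The entropy of a sum, one of whose summands has few values with a few exceptions
-/

set_option autoImplicit false
set_option linter.unusedSectionVars false

namespace Pool.Agent.Run7.h127.FV

open Finset H112
open Pool.Agent.Y359.PE (h fc cl mem_cl fc_posR fc_pos fc_le fc_congr h_nonneg cell_left cell_right
  cell_main nz h_congr h_const h_le_log submod chain)
open scoped Classical

variable {α β γ δ : Type*} {V : Type*} [AddCommGroup V]

lemma chain_nonneg (S : Finset α) (f : α → β) (g : α → γ) :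
    0 ≤ h S (fun x => (f x, g x)) - h S f := by
  rw [chain]
  exact div_nonneg (sum_nonneg fun x _ => h_nonneg _ _) (Nat.cast_nonneg _)

lemma h_pair_comm (S : Finset α) (f : α → β) (g : α → γ) :
    h S (fun x => (f x, g x)) = h S (fun x => (g x, f x)) := by
  refine h_congr fun x _ y _ => ?_
  simp only [Prod.mk.injEq]
  tauto

lemma h_le_pair (S : Finset α) (f : α → β) (g : α → γ) :
    h S g ≤ h S (fun x => (f x, g x)) := by
  have h1 := chain_nonneg S g f
  rw [h_pair_comm] at h1
  linarith

lemma cond_le (S : Finset α) (f : α → β) (k : α → γ) :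
    h S (fun x => (f x, k x)) - h S f ≤ h S k := by
  have h1 := submod S (fun _ => ()) f k (fun _ _ _ _ _ => rfl)
  have h2 : h S (fun _ : α => ()) = 0 := h_const _ _ fun _ _ _ _ => rfl
  have h3 : h S (fun x => ((), k x)) = h S k := by
    refine h_congr fun x _ y _ => ?_
    simp
  linarith

lemma card_image_two (inst : DecidableEq ℕ) (G : Finset α) (J : α → ℕ)
    (hJ : ∀ g, J g = 0 ∨ J g = 1) : (@image α ℕ inst J G).card ≤ 2 := by
  have : @image α ℕ inst J G ⊆ {0, 1} := by
    intro P hP
    obtain ⟨g, _, rfl⟩ := mem_image.1 hP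
    simp [hJ g]
  exact (card_le_card this).trans card_le_two

/-- `E` is the set of the ordinary elements of the second set, on which the function `b` has at most
`m` values. -/
lemma large (G : Finset α) (G' : Finset β) (hG : G.Nonempty) (hG' : G'.Nonempty) (a : α → V)
    (b : β → V) (E : Finset β) (B : Finset V) {m : ℕ} (hm : 1 ≤ m) (hB : B.card ≤ m)
    (hE : ∀ g ∈ G', g ∈ E → b g ∈ B)
    (hβ : ((G'.filter fun g => g ∉ E).card : ℝ) ≤ G'.card / 8) :
    7 / 8 * h G a + h G' b - Real.log (2 * m) ≤ h (G ×ˢ G') (fun x => a x.1 + b x.2) := by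
  have hN : (0 : ℝ) < G.card := by exact_mod_cast card_pos.2 hG
  have hN' : (0 : ℝ) < G'.card := by exact_mod_cast card_pos.2 hG'
  have hm0 : (0 : ℝ) < m := by exact_mod_cast hm
  set J : β → ℕ := fun g => if g ∈ E then 1 else 0 with hJ
  -- the two parts
  have hcl : ∀ g ∈ G', cl G' J g = if g ∈ E then G'.filter (fun g => g ∈ E)
      else G'.filter (fun g => g ∉ E) := by
    intro g _
    ext u
    rw [mem_cl]
    by_cases h1 : g ∈ E
    · rw [if_pos h1, mem_filter]
      by_cases h2 : u ∈ E <;> simp [hJ, h1, h2]
    · rw [if_neg h1, mem_filter]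
      by_cases h2 : u ∈ E <;> simp [hJ, h1, h2]
  set X := h (G'.filter (fun g => g ∉ E)) b with hX
  have hX0 : 0 ≤ X := h_nonneg _ _
  set β' : ℝ := ((G'.filter fun g => g ∉ E).card : ℝ) with hβ'
  have hβ0 : 0 ≤ β' := Nat.cast_nonneg _
  have hcount : ((G'.filter fun g => g ∈ E).card : ℝ) = G'.card - β' := by
    have h1 := card_filter_add_card_filter_not (s := G') (fun g => g ∈ E)
    have h2 : ((G'.filter fun g => g ∈ E).card : ℝ) + β' = G'.card := by
      rw [hβ']
      exact_mod_cast h1
    linarith
  have ha0 := h_nonneg G a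
  -- lower bound for the sum
  have low : ((G'.card - β') * h G a + β' * X) / G'.card ≤
      h (G ×ˢ G') (fun x => a x.1 + b x.2) := by
    refine le_trans ?_ (cond_le (G ×ˢ G') (fun s => J s.2) (fun x => a x.1 + b x.2))
    rw [chain, card_product, sum_product]
    push_cast
    have h1 : ∀ g ∈ G, ∀ g' ∈ G', (if g' ∈ E then h G a else X) ≤
        h (cl (G ×ˢ G') (fun s => J s.2) (g, g')) (fun x => a x.1 + b x.2) := by
      intro g hg g' hg'
      have e1 : cl (G ×ˢ G') (fun s => J s.2) (g, g') = G ×ˢ cl G' J g' := by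
        ext u
        rw [mem_cl, mem_product, mem_product, mem_cl]
        tauto
      have hne : (cl G' J g').Nonempty := ⟨g', mem_cl.2 ⟨hg', rfl⟩⟩
      rw [e1]
      split_ifs with h2
      · exact cell_left G _ hne a b
      · have := cell_right G (cl G' J g') hG a b
        rw [hcl g' hg', if_neg h2] at this ⊢
        exact this
    have h2 : ∑ g ∈ G, ∑ g' ∈ G', (if g' ∈ E then h G a else X) ≤
        ∑ g ∈ G, ∑ g' ∈ G', h (cl (G ×ˢ G') (fun s => J s.2) (g, g'))
          (fun x => a x.1 + b x.2) :=
      sum_le_sum fun g hg => sum_le_sum fun g' hg' => h1 g hg g' hg'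
    have h3 : ∑ g' ∈ G', (if g' ∈ E then h G a else X) = (G'.card - β') * h G a + β' * X := by
      rw [sum_ite, sum_const, sum_const, nsmul_eq_mul, nsmul_eq_mul, hcount]
    rw [h3, sum_const, nsmul_eq_mul] at h2
    rw [div_le_div_iff₀ hN' (by positivity)]
    have h4 := mul_le_mul_of_nonneg_right h2 hN'.le
    nlinarith
  -- upper bound for the entropy of `b`
  have up : h G' b ≤ Real.log 2 + ((G'.card - β') * Real.log m + β' * X) / G'.card := by
    have h1 := h_le_pair G' J b
    have h2 := chain G' J b
    have h3 : h G' J ≤ Real.log 2 := by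
      refine (h_le_log hG' J).trans (Real.log_le_log ?_ ?_)
      · exact Nat.cast_pos.2 (card_pos.2 (@Nonempty.image β ℕ (fun a b => Classical.propDecidable (a = b)) G' hG' J))
      · exact Nat.cast_le_ofNat.2 (card_image_two _ G' J fun g => by
          by_cases h2 : g ∈ E <;> simp [hJ, h2])
    have h4 : ∑ g ∈ G', h (cl G' J g) b ≤ (G'.card - β') * Real.log m + β' * X := by
      have h5 : ∀ g ∈ G', h (cl G' J g) b ≤ if g ∈ E then Real.log m else X := by
        intro g hg
        have hne : (cl G' J g).Nonempty := ⟨g, mem_cl.2 ⟨hg, rfl⟩⟩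
        rw [hcl g hg] at hne ⊢
        split_ifs with h6
        · rw [if_pos h6] at hne
          refine (h_le_log hne b).trans ?_
          have h7 : ((G'.filter fun g => g ∈ E).image b).card ≤ m := by
            refine (card_le_card ?_).trans hB
            intro v hv
            obtain ⟨u, hu, rfl⟩ := mem_image.1 hv
            rw [mem_filter] at hu
            exact hE u hu.1 hu.2
          have h8 : 0 < ((G'.filter fun g => g ∈ E).image b).card := card_pos.2 (hne.image b)
          exact Real.log_le_log (by exact_mod_cast h8) (by exact_mod_cast h7)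
        · exact le_rfl
      refine (sum_le_sum h5).trans (le_of_eq ?_)
      rw [sum_ite, sum_const, sum_const, nsmul_eq_mul, nsmul_eq_mul, hcount]
    have h5 : (∑ g ∈ G', h (cl G' J g) b) / G'.card ≤
        ((G'.card - β') * Real.log m + β' * X) / G'.card :=
      div_le_div_of_nonneg_right h4 hN'.le
    linarith
  have hlm : 0 ≤ Real.log m := Real.log_natCast_nonneg _
  have hlog : Real.log (2 * m) = Real.log 2 + Real.log m :=
    Real.log_mul (by norm_num) hm0.ne'
  rw [hlog]
  have e1 : ((G'.card - β') * h G a + β' * X) / G'.card =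
      h G a - β' / G'.card * h G a + β' * X / G'.card := by
    field_simp
  have e2 : ((G'.card - β') * Real.log m + β' * X) / G'.card =
      Real.log m - β' / G'.card * Real.log m + β' * X / G'.card := by
    field_simp
  rw [e1] at low
  rw [e2] at up
  have h6 : β' / G'.card ≤ 1 / 8 := by
    rw [div_le_iff₀ hN']
    linarith
  have h7 : 0 ≤ β' / G'.card := by positivity
  have h8 : 0 ≤ β' / G'.card * Real.log m := by positivity
  nlinarith

end Pool.Agent.Run7.h127.FV
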