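import Pool.Agent.Run7.h127.FV.Step

/-!
# Enlarging a subgroup so that the resulting coordinate has no large drops
-/

set_option autoImplicit false
set_option linter.unusedSectionVars false

namespace Pool.Agent.Run7.h127.FV

open Finset
open Pool.Agent.Y359.PE (h fc cl mem_cl fc_posR fc_pos fc_le fc_congr h_nonneg h_congr h_const
  h_le_log submod chain avg_cl)
open scoped Classical

universe u

/-- the multiplier `lcm(1, …, 2m)³` -/
noncomputable def mult (m : ℕ) : ℕ := Nat.lcmUpto (2 * m) ^ 3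

lemma mult_pos (m : ℕ) : 0 < mult m := pow_pos (Nat.lcmUpto_pos _) 3

lemma dvd_mult {m r : ℕ} (hr : r ≤ m ^ 2) (hr0 : r ≠ 0)
    (hp : ∀ p : ℕ, p.Prime → p ∣ r → p ≤ 2 * m) : r ∣ mult m := by
  have hm : 1 ≤ m := by
    rcases Nat.eq_zero_or_pos m with rfl | h
    · simp at hr
      omega
    · exact h
  rw [← Nat.factorization_le_iff_dvd hr0 (mult_pos m).ne', Finsupp.le_def]
  intro p
  by_cases hpp : p.Prime
  · by_cases hpr : p ∣ r
    · unfold mult
      rw [Nat.factorization_pow, Finsupp.smul_apply, smul_eq_mul, Nat.factorization_lcmUpto _ hpp]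
      have hp2 := hp p hpp hpr
      set a := Nat.log p (2 * m) with ha
      have ha1 : 1 ≤ a := by
        rw [ha]
        exact Nat.le_log_of_pow_le hpp.one_lt (by rw [pow_one]; exact hp2)
      have h1 : 2 * m < p ^ (a + 1) := Nat.lt_pow_succ_log_self hpp.one_lt _
      have h2 : p ^ (r.factorization p) ≤ r := Nat.ordProj_le p hr0
      by_contra hcon
      push Not at hcon
      have h3 : p ^ (2 * a + 2) ≤ p ^ (r.factorization p) :=
        Nat.pow_le_pow_right hpp.pos (by omega)
      have h4 : p ^ (2 * a + 2) = p ^ (a + 1) * p ^ (a + 1) := by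
        rw [← pow_add]
        congr 1
        ring
      have h5 : m < p ^ (a + 1) := by omega
      have h6 : m * m < p ^ (a + 1) * p ^ (a + 1) := Nat.mul_lt_mul'' h5 h5
      have h7 : m ^ 2 = m * m := sq m
      omega
    · rw [Nat.factorization_eq_zero_of_not_dvd hpr]
      exact Nat.zero_le _
  · rw [Nat.factorization_eq_zero_of_not_prime _ hpp]
    exact Nat.zero_le _

lemma log_mult (m : ℕ) : Real.log (mult m) ≤ 33 * m := by
  unfold mult
  rw [Nat.cast_pow, Real.log_pow, ← Chebyshev.psi_eq_log_lcmUpto]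
  have h1 := Chebyshev.psi_le_const_mul_self (x := ((2 * m : ℕ) : ℝ)) (by positivity)
  have h2 : Real.log 4 ≤ 14 / 10 := by
    have : (4 : ℝ) = 2 ^ 2 := by norm_num
    rw [this, Real.log_pow]
    have := Real.log_two_lt_d9
    norm_num at this ⊢
    linarith
  push_cast at h1 ⊢
  have hm : (0 : ℝ) ≤ m := Nat.cast_nonneg m
  have h3 : Real.log 4 * (2 * m) ≤ 14 / 10 * (2 * m) := mul_le_mul_of_nonneg_right h2 (by positivity)
  have h4 : (Real.log 4 + 4) * (2 * (m : ℝ)) = Real.log 4 * (2 * m) + 4 * (2 * m) := by ring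
  rw [h4] at h1
  linarith

/-- **The maximal enlargement.** -/
theorem exists_max {Γ : Type u} [AddCommGroup Γ] (A : Finset Γ) (hA : A.Nonempty)
    (G : AddSubgroup Γ) {m : ℕ} (hm : 1 ≤ m) (B : Finset (Γ ⧸ G)) (hB : B.card ≤ m)
    (E : Finset Γ) (hEA : E ⊆ A) (hE : ∀ a ∈ E, (QuotientAddGroup.mk a : Γ ⧸ G) ∈ B) :
    ∃ G' : AddSubgroup Γ, G ≤ G' ∧ (∀ x ∈ G', mult m • x ∈ G) ∧
      ∀ K : AddSubgroup (Γ ⧸ G'), Finite K → K ≠ ⊥ → Nat.card K ≤ 2 * m →
        drop E (fun a => (QuotientAddGroup.mk a : Γ ⧸ G')) K <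
          A.card / 2 * Real.log (Nat.card K) := by
  have hN : (0 : ℝ) < A.card := by exact_mod_cast card_pos.2 hA
  set Ψ : AddSubgroup Γ → ℝ := fun H =>
    E.card * h E (fun a => (QuotientAddGroup.mk a : Γ ⧸ H)) with hΨ
  have hΨ0 : ∀ H, 0 ≤ Ψ H := fun H => mul_nonneg (Nat.cast_nonneg _) (h_nonneg _ _)
  set P : AddSubgroup Γ → Prop := fun H => G ≤ H ∧ G.relIndex H ≠ 0 ∧
    (∀ p : ℕ, p.Prime → p ∣ G.relIndex H → p ≤ 2 * m) ∧
    Ψ H + A.card / 2 * Real.log (G.relIndex H) ≤ Ψ G with hP
  have hPG : P G := by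
    refine ⟨le_refl _, ?_, ?_, ?_⟩
    · rw [AddSubgroup.relIndex_self]
      exact one_ne_zero
    · intro p hp hd
      rw [AddSubgroup.relIndex_self] at hd
      exact absurd (Nat.dvd_one.1 hd) hp.one_lt.ne'
    · rw [AddSubgroup.relIndex_self, Nat.cast_one, Real.log_one, mul_zero, add_zero]
  -- the upper bound for the index
  have hΨG : Ψ G ≤ A.card * Real.log m := by
    rcases E.eq_empty_or_nonempty with h0 | h0
    · rw [hΨ]
      simp only
      rw [h0, card_empty, Nat.cast_zero, zero_mul]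
      have : 0 ≤ Real.log m := Real.log_natCast_nonneg _
      positivity
    · have h1 : h E (fun a => (QuotientAddGroup.mk a : Γ ⧸ G)) ≤ Real.log m := by
        have h2 : ∀ d : DecidableEq (Γ ⧸ G),
            (@image _ _ d (fun a => (QuotientAddGroup.mk a : Γ ⧸ G)) E).card ≤ m := by
          intro d
          refine (card_le_card ?_).trans hB
          intro b hb
          obtain ⟨a, ha, rfl⟩ := mem_image.1 hb
          exact hE a ha
        refine (h_le_log h0 _).trans (Real.log_le_log ?_ ?_)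
        · have h3 : ∀ d : DecidableEq (Γ ⧸ G),
              0 < (@image _ _ d (fun a => (QuotientAddGroup.mk a : Γ ⧸ G)) E).card := by
            intro d
            exact card_pos.2 (h0.image _)
          exact_mod_cast h3 _
        · exact_mod_cast h2 _
      have h2 : (E.card : ℝ) ≤ A.card := by exact_mod_cast card_le_card hEA
      exact mul_le_mul h2 h1 (h_nonneg _ _) hN.le
  have hbd : ∀ H, P H → G.relIndex H ≤ m ^ 2 := by
    rintro H ⟨-, h2, -, h4⟩
    have h5 : (A.card : ℝ) / 2 * Real.log (G.relIndex H) ≤ A.card * Real.log m := by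
      have := hΨ0 H
      linarith
    have h6 : Real.log (G.relIndex H) ≤ Real.log ((m : ℝ) ^ 2) := by
      rw [Real.log_pow]
      push_cast
      have h7 : (A.card : ℝ) * Real.log (G.relIndex H) ≤ A.card * (2 * Real.log m) := by linarith
      exact le_of_mul_le_mul_left h7 hN
    have h8 : (0 : ℝ) < G.relIndex H := by exact_mod_cast Nat.pos_of_ne_zero h2
    have h9 : (0 : ℝ) < (m : ℝ) ^ 2 := by
      have : (1 : ℝ) ≤ m := by exact_mod_cast hm
      positivity
    have h10 := (Real.log_le_log_iff h8 h9).1 h6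
    exact_mod_cast h10
  -- a maximal index
  obtain ⟨r, ⟨G', hPG', hr⟩, hmax⟩ : ∃ r, (∃ H, P H ∧ G.relIndex H = r) ∧
      ∀ r', (∃ H, P H ∧ G.relIndex H = r') → r' ≤ r := by
    have hne : ∃ r, ∃ H, P H ∧ G.relIndex H = r := ⟨_, G, hPG, rfl⟩
    have hb : ∀ r, (∃ H, P H ∧ G.relIndex H = r) → r ≤ m ^ 2 := by
      rintro r ⟨H, hH, rfl⟩
      exact hbd H hH
    refine ⟨Nat.findGreatest (fun r => ∃ H, P H ∧ G.relIndex H = r) (m ^ 2), ?_, ?_⟩
    · obtain ⟨r, hr⟩ := hne
      exact Nat.findGreatest_spec (P := fun r => ∃ H, P H ∧ G.relIndex H = r) (hb r hr) hr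
    · intro r' hr'
      exact Nat.le_findGreatest (hb r' hr') hr'
  obtain ⟨g1, g2, g3, g4⟩ := hPG'
  refine ⟨G', g1, ?_, ?_⟩
  · intro x hx
    obtain ⟨c, hc⟩ := dvd_mult (hbd G' ⟨g1, g2, g3, g4⟩) g2 g3
    have h1 : G.relIndex G' • x ∈ G := by
      have := AddSubgroup.nsmul_index_mem (G.addSubgroupOf G') (⟨x, hx⟩ : G')
      rw [AddSubgroup.mem_addSubgroupOf] at this
      exact this
    rw [hc, mul_nsmul]
    exact G.nsmul_mem h1 c
  · intro K hKf hK hK2
    by_contra hcon
    push Not at hcon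
    obtain ⟨G'', hG''⟩ : ∃ G'', G'' = K.comap (QuotientAddGroup.mk' G') := ⟨_, rfl⟩
    have hmem : ∀ x, x ∈ G'' ↔ (QuotientAddGroup.mk x : Γ ⧸ G') ∈ K := by
      intro x
      rw [hG'', AddSubgroup.mem_comap]
      rfl
    have h1 : G' ≤ G'' := by
      intro x hx
      rw [hmem, (QuotientAddGroup.eq_zero_iff x).2 hx]
      exact K.zero_mem
    have h2 : G'.relIndex G'' = Nat.card K := by
      have e1 := AddSubgroup.relIndex_ker (K := G'') (QuotientAddGroup.mk' G')
      rw [QuotientAddGroup.ker_mk'] at e1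
      rw [e1, hG'', AddSubgroup.map_comap_eq_self_of_surjective (QuotientAddGroup.mk'_surjective G')]
    have h3 : G.relIndex G'' = G.relIndex G' * Nat.card K := by
      rw [← h2]
      exact (AddSubgroup.relIndex_mul_relIndex G G' G'' g1 h1).symm
    have hK1 : 1 < Nat.card K := by
      have := (AddSubgroup.one_lt_card_iff_ne_bot K).2 hK
      exact this
    have h4 : P G'' := by
      refine ⟨g1.trans h1, ?_, ?_, ?_⟩
      · rw [h3]
        exact mul_ne_zero g2 (by omega)
      · intro p hp hd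
        rw [h3] at hd
        rcases (Nat.Prime.dvd_mul hp).1 hd with hd | hd
        · exact g3 p hp hd
        · exact (Nat.le_of_dvd (by omega) hd).trans hK2
      · rw [drop_eq] at hcon
        have e1 : h E (fun a => (QuotientAddGroup.mk (QuotientAddGroup.mk a : Γ ⧸ G') :
            (Γ ⧸ G') ⧸ K)) = h E (fun a => (QuotientAddGroup.mk a : Γ ⧸ G'')) := by
          refine h_congr fun a _ b _ => ?_
          rw [QuotientAddGroup.eq, QuotientAddGroup.eq, hmem]
          rfl
        rw [e1] at hcon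
        have e2 : Ψ G'' = E.card * h E (fun a => (QuotientAddGroup.mk a : Γ ⧸ G'')) := rfl
        have e3 : Ψ G' = E.card * h E (fun a => (QuotientAddGroup.mk a : Γ ⧸ G')) := rfl
        have e4 : Real.log (G.relIndex G'') = Real.log (G.relIndex G') + Real.log (Nat.card K) := by
          rw [h3, Nat.cast_mul, Real.log_mul]
          · exact_mod_cast g2
          · exact_mod_cast (show Nat.card K ≠ 0 by omega)
        rw [e4, e2]
        rw [e3] at g4
        linarith
    have h5 := hmax _ ⟨G'', h4, rfl⟩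
    rw [h3, ← hr] at h5
    have h6 : 0 < G.relIndex G' := Nat.pos_of_ne_zero g2
    nlinarith

end Pool.Agent.Run7.h127.FV
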