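import Pool.Agent.Run7.h127.FV.Max
import Pool.Agent.Y359.PE.Multi

/-!
# Sets of small doubling and subgroups of which few cosets meet the set
-/

set_option autoImplicit false
set_option linter.unusedSectionVars false

namespace Pool.Agent.Run7.h127.FV

open Finset
open Pool.Agent.Y359.PE (h fc cl mem_cl fc_posR fc_pos fc_le fc_congr h_nonneg h_congr h_const
  h_le_log submod chain avg_cl mk mk_eq_iff h_mk_insert mk_add cl_prod)
open scoped Pointwise

universe u

/-- the coordinate of `a` at the subgroup `G` -/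
noncomputable def X {Γ : Type u} [AddCommGroup Γ] (g : AddSubgroup Γ → AddSubgroup Γ) (a : Γ)
    (G : AddSubgroup Γ) : (G : AddSubgroup Γ) → Γ ⧸ G :=
  open Classical in Pi.single (g G) (QuotientAddGroup.mk a)

section

variable {Γ : Type u} [AddCommGroup Γ] {g : AddSubgroup Γ → AddSubgroup Γ}

lemma X_eq_iff {a b : Γ} {G : AddSubgroup Γ} :
    X g a G = X g b G ↔ (QuotientAddGroup.mk a : Γ ⧸ g G) = QuotientAddGroup.mk b := by
  classical
  unfold X
  rw [(Pi.single_injective (g G)).eq_iff]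

lemma X_eq_iff' {a b : Γ} {G : AddSubgroup Γ} : X g a G = X g b G ↔ a - b ∈ g G := by
  rw [X_eq_iff, QuotientAddGroup.eq]
  have : -a + b = -(a - b) := by abel
  rw [this, neg_mem_iff]

lemma X_add (a b : Γ) (G : AddSubgroup Γ) : X g a G + X g b G = X g (a + b) G := by
  classical
  unfold X
  rw [← Pi.single_add, ← QuotientAddGroup.mk_add]

end

open Classical in
/-- the entropy of many coordinates is at most a constant times the increment -/
theorem multi {Γ : Type u} [AddCommGroup Γ] {A : Finset Γ} (hA : A.Nonempty) {m : ℕ} (hm : 1 ≤ m)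
    (g : AddSubgroup Γ → AddSubgroup Γ) (T : Finset (AddSubgroup Γ))
    (hT : ∀ G ∈ T, ∃ (E : Finset Γ) (B : Finset (Γ ⧸ g G)), E ⊆ A ∧ B.card ≤ m ∧
      (∀ a ∈ E, (QuotientAddGroup.mk a : Γ ⧸ g G) ∈ B) ∧
      100 * ((A.filter fun a => a ∉ E).card : ℝ) ≤ A.card ∧
      ∀ K : AddSubgroup (Γ ⧸ g G), Finite K → K ≠ ⊥ → Nat.card K ≤ 2 * m →
        drop E (fun a => (QuotientAddGroup.mk a : Γ ⧸ g G)) K <
          A.card / 2 * Real.log (Nat.card K)) :
    h A (mk T (X g)) ≤ 10 ^ 9 * Real.log (2 * m) *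
      (h (A ×ˢ A) (fun s => mk T (X g) s.1 + mk T (X g) s.2) - h A (mk T (X g))) := by
  induction T using Finset.induction_on with
  | empty =>
    have e2 : h A (mk ∅ (X g)) = 0 := by
      refine h_const _ _ fun x _ y _ => ?_
      rw [mk_eq_iff]
      intro p hp
      exact absurd hp (notMem_empty _)
    rw [e2, sub_zero]
    have h1 : 0 ≤ Real.log (2 * m) := Real.log_nonneg (by
      have : (1 : ℝ) ≤ m := by exact_mod_cast hm
      linarith)
    exact mul_nonneg (by positivity) (h_nonneg _ _)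
  | insert G T hp ih =>
    have ih' := ih (fun q hq => hT q (mem_insert_of_mem hq))
    obtain ⟨E, B, hEA, hB, hE, hδ, hNR⟩ := hT G (mem_insert_self _ _)
    have st := step A hA (mk T (X g)) (fun a => (QuotientAddGroup.mk a : Γ ⧸ g G)) E hEA B hm hB
      hE hδ hNR
    have e1 : h A (mk (insert G T) (X g)) =
        h A (fun u => (mk T (X g) u, (QuotientAddGroup.mk u : Γ ⧸ g G))) := by
      rw [h_mk_insert]
      refine h_congr fun a _ b _ => ?_
      rw [Prod.mk.injEq, Prod.mk.injEq, X_eq_iff]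
    have e2 : h (A ×ˢ A) (fun s => mk (insert G T) (X g) s.1 + mk (insert G T) (X g) s.2) =
        h (A ×ˢ A) (fun s => (mk T (X g) s.1 + mk T (X g) s.2,
          (QuotientAddGroup.mk s.1 : Γ ⧸ g G) + QuotientAddGroup.mk s.2)) := by
      refine h_congr fun s _ t _ => ?_
      rw [Prod.mk.injEq, ← mk_add, ← mk_add, ← mk_add, ← mk_add, mk_eq_iff, mk_eq_iff]
      constructor
      · intro h1
        refine ⟨fun q hq => h1 q (mem_insert_of_mem hq), ?_⟩
        have h2 := h1 G (mem_insert_self _ _)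
        simp only [Pi.add_apply] at h2
        rw [X_add, X_add, X_eq_iff] at h2
        exact h2
      · rintro ⟨h1, h2⟩ q hq
        rcases mem_insert.1 hq with rfl | h3
        · simp only [Pi.add_apply]
          rw [X_add, X_add, X_eq_iff]
          exact h2
        · exact h1 q h3
    rw [e1, e2]
    have h3 : ∀ c a b d e f : ℝ, a - b ≤ c * (d - e - (a - b)) → b ≤ c * (e - b) →
        a ≤ c * (d - a) := by
      intro c a b d e _ h4 h5
      have : c * (d - a) = c * (d - e - (a - b)) + c * (e - b) := by ring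
      linarith
    exact h3 _ _ _ _ _ 0 st ih'

open Classical in
/-- the increment of the entropy is at most the logarithm of the doubling -/
theorem incr {Γ : Type u} [AddCommGroup Γ] {A : Finset Γ} (hA : A.Nonempty)
    (g : AddSubgroup Γ → AddSubgroup Γ) (T : Finset (AddSubgroup Γ)) :
    h (A ×ˢ A) (fun s => mk T (X g) s.1 + mk T (X g) s.2) - h A (mk T (X g)) ≤
      Real.log (A + A).card - Real.log A.card := by
  have hN : (0 : ℝ) < A.card := by exact_mod_cast card_pos.2 hA
  obtain ⟨z, hz⟩ : ∃ z, z = mk T (X g) := ⟨_, rfl⟩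
  rw [← hz]
  obtain ⟨f, hfz⟩ : ∃ f : Γ × Γ → AddSubgroup Γ → ((G : AddSubgroup Γ) → Γ ⧸ G),
    ∀ s, f s = z s.1 + z s.2 := ⟨_, fun _ => rfl⟩
  have hf : (fun s : Γ × Γ => z s.1 + z s.2) = f := by
    funext s
    rw [hfz]
  rw [hf]
  -- submodularity
  have h3 := submod (A ×ˢ A) f (fun s => (z s.1, s.2)) (fun s => s.1 + s.2) (by
    intro s _ t _ hst
    rw [Prod.mk.injEq] at hst
    rw [hfz, hfz, hst.1, hst.2])
  -- the four entropies
  have e1 : h (A ×ˢ A) (fun s : Γ × Γ => ((z s.1, s.2), s.1 + s.2)) =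
      2 * Real.log A.card := by
    unfold h
    have : ∀ s ∈ A ×ˢ A, (Real.log ((A ×ˢ A).card : ℝ) -
        Real.log (fc (A ×ˢ A) (fun s : Γ × Γ => ((z s.1, s.2), s.1 + s.2)) s : ℝ)) =
        2 * Real.log A.card := by
      intro s hs
      have h4 : fc (A ×ˢ A) (fun s : Γ × Γ => ((z s.1, s.2), s.1 + s.2)) s = 1 := by
        unfold fc
        rw [card_eq_one]
        refine ⟨s, ?_⟩
        ext t
        rw [mem_cl, mem_singleton]
        constructor
        · rintro ⟨-, h5⟩
          rw [Prod.mk.injEq, Prod.mk.injEq] at h5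
          have h6 : t.1 = s.1 := by
            have := h5.2
            rw [h5.1.2] at this
            exact add_right_cancel this
          exact Prod.ext h6 h5.1.2
        · rintro rfl
          exact ⟨hs, rfl⟩
      rw [h4, card_product, Nat.cast_mul, Real.log_mul hN.ne' hN.ne', Nat.cast_one, Real.log_one]
      ring
    rw [sum_congr rfl this, sum_const, nsmul_eq_mul, card_product]
    push_cast
    field_simp
  have e2 : h (A ×ˢ A) (fun s : Γ × Γ => (z s.1, s.2)) = h A z + Real.log A.card := by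
    unfold h
    have : ∀ s ∈ A ×ˢ A, (Real.log ((A ×ˢ A).card : ℝ) -
        Real.log (fc (A ×ˢ A) (fun s : Γ × Γ => (z s.1, s.2)) s : ℝ)) =
        (Real.log A.card - Real.log (fc A z s.1)) + Real.log A.card := by
      intro s hs
      rw [mem_product] at hs
      have h4 : fc (A ×ˢ A) (fun s : Γ × Γ => (z s.1, s.2)) s = fc A z s.1 := by
        unfold fc
        have h5 := cl_prod A A z (fun b : Γ => b) s
        rw [h5, card_product]
        have h6 : (cl A (fun b : Γ => b) s.2).card = 1 := by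
          rw [card_eq_one]
          refine ⟨s.2, ?_⟩
          ext t
          rw [mem_cl, mem_singleton]
          exact ⟨fun h7 => h7.2, fun h7 => ⟨h7 ▸ hs.2, h7⟩⟩
        rw [h6, mul_one]
      rw [h4, card_product, Nat.cast_mul, Real.log_mul hN.ne' hN.ne']
      ring
    rw [sum_congr rfl this, sum_product, card_product]
    simp only [sum_const, nsmul_eq_mul, ← mul_sum]
    rw [sum_add_distrib, sum_const, nsmul_eq_mul]
    push_cast
    field_simp
  have e3 : h (A ×ˢ A) (fun s : Γ × Γ => (f s, s.1 + s.2)) ≤ Real.log (A + A).card := by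
    have h4 : h (A ×ˢ A) (fun s : Γ × Γ => (f s, s.1 + s.2)) =
        h (A ×ˢ A) (fun s : Γ × Γ => s.1 + s.2) := by
      refine h_congr fun s _ t _ => ?_
      rw [Prod.mk.injEq]
      refine ⟨fun h5 => h5.2, fun h5 => ⟨?_, h5⟩⟩
      rw [hfz, hfz, hz, ← mk_add, ← mk_add, mk_eq_iff]
      intro G _
      simp only [Pi.add_apply]
      rw [X_add, X_add, h5]
    rw [h4]
    exact h_le_log (hA.product hA) _
  rw [e1, e2] at h3
  linarith

open Classical in
/-- **Subgroups of which few cosets meet the set.** -/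
theorem inter {Γ : Type u} [AddCommGroup Γ] {A : Finset Γ} (hA : A.Nonempty) {K : ℝ}
    (hK : ((A + A).card : ℝ) ≤ K * A.card) {m : ℕ} (hm : 1 ≤ m)
    (F : Set (AddSubgroup Γ))
    (hF : ∀ G ∈ F, ∃ B : Finset Γ, B.card ≤ m ∧
      100 * ((A.filter fun a => ∀ b ∈ B, a - b ∉ G).card : ℝ) ≤ A.card) :
    ∃ g ∈ A, (A.card : ℝ) ≤ K ^ (10 ^ 9 * Real.log (2 * m)) *
      (A.filter fun a => mult m • (a - g) ∈ sInf F).card := by
  have hN : (0 : ℝ) < A.card := by exact_mod_cast card_pos.2 hA
  have hAA : (A.card : ℝ) ≤ (A + A).card := by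
    exact_mod_cast card_le_card_add_right hA
  have hK1 : 1 ≤ K := by nlinarith
  -- the enlargements
  have hG' : ∀ G : AddSubgroup Γ, ∃ G' : AddSubgroup Γ, G ∈ F → ((∀ x ∈ G', mult m • x ∈ G) ∧
      ∃ (E : Finset Γ) (B : Finset (Γ ⧸ G')), E ⊆ A ∧ B.card ≤ m ∧
      (∀ a ∈ E, (QuotientAddGroup.mk a : Γ ⧸ G') ∈ B) ∧
      100 * ((A.filter fun a => a ∉ E).card : ℝ) ≤ A.card ∧
      ∀ K : AddSubgroup (Γ ⧸ G'), Finite K → K ≠ ⊥ → Nat.card K ≤ 2 * m →
        drop E (fun a => (QuotientAddGroup.mk a : Γ ⧸ G')) K <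
          A.card / 2 * Real.log (Nat.card K)) := by
    intro G
    by_cases hG : G ∈ F
    · obtain ⟨B, hB, hAB⟩ := hF G hG
      obtain ⟨E, hEd⟩ : ∃ E, E = A.filter fun a => ∃ b ∈ B, a - b ∈ G := ⟨_, rfl⟩
      have hEA : E ⊆ A := by
        rw [hEd]
        exact filter_subset _ _
      have hEc : 100 * ((A.filter fun a => a ∉ E).card : ℝ) ≤ A.card := by
        have : (A.filter fun a => a ∉ E) = A.filter fun a => ∀ b ∈ B, a - b ∉ G := by
          refine filter_congr fun a ha => ?_
          rw [hEd, mem_filter, not_and]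
          push Not
          exact ⟨fun h => h ha, fun h _ => h⟩
        rw [this]
        exact hAB
      have hmk : ∀ (H : AddSubgroup Γ), G ≤ H → ∃ B' : Finset (Γ ⧸ H), B'.card ≤ m ∧
          ∀ a ∈ E, (QuotientAddGroup.mk a : Γ ⧸ H) ∈ B' := by
        intro H hH
        refine ⟨B.image (fun b => (QuotientAddGroup.mk b : Γ ⧸ H)), card_image_le.trans hB, ?_⟩
        intro a ha
        rw [hEd, mem_filter] at ha
        obtain ⟨b, hb, hab⟩ := ha.2
        refine mem_image.2 ⟨b, hb, ?_⟩
        rw [QuotientAddGroup.eq]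
        have : -b + a = a - b := by abel
        rw [this]
        exact hH hab
      obtain ⟨B₀, hB₀, hE₀⟩ := hmk G le_rfl
      obtain ⟨G', hGG', h1, h2⟩ := exists_max A hA G hm B₀ hB₀ E hEA hE₀
      obtain ⟨B₁, hB₁, hE₁⟩ := hmk G' hGG'
      exact ⟨G', fun _ => ⟨h1, E, B₁, hEA, hB₁, hE₁, hEc, h2⟩⟩
    · exact ⟨G, fun h => absurd h hG⟩
  choose g hg using hG'
  -- finitely many subgroups separate the elements
  have hsep : ∀ s : Γ × Γ, ∃ G : AddSubgroup Γ, mult m • (s.1 - s.2) ∉ sInf F →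
      G ∈ F ∧ mult m • (s.1 - s.2) ∉ G := by
    intro s
    by_cases hs : mult m • (s.1 - s.2) ∈ sInf F
    · exact ⟨⊥, fun h => absurd hs h⟩
    · rw [AddSubgroup.mem_sInf] at hs
      push Not at hs
      obtain ⟨G, hG, h⟩ := hs
      exact ⟨G, fun _ => ⟨hG, h⟩⟩
  choose G hG using hsep
  obtain ⟨T, hT⟩ : ∃ T : Finset (AddSubgroup Γ),
    T = ((A ×ˢ A).filter fun s => mult m • (s.1 - s.2) ∉ sInf F).image G := ⟨_, rfl⟩
  have hTF : ∀ H ∈ T, H ∈ F := by
    intro H hH
    rw [hT] at hH
    obtain ⟨s, hs, rfl⟩ := mem_image.1 hH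
    exact (hG s (mem_filter.1 hs).2).1
  have h1 := multi hA hm g T (fun H hH => (hg H (hTF H hH)).2)
  have h1' := incr hA g T
  obtain ⟨z, hz⟩ : ∃ z, z = mk T (X g) := ⟨_, rfl⟩
  rw [← hz] at h1 h1'
  have h2 : Real.log (A + A).card - Real.log A.card ≤ Real.log K := by
    rw [sub_le_iff_le_add, ← Real.log_mul (by linarith) hN.ne']
    exact Real.log_le_log (by linarith) hK
  have hc0 : 0 ≤ 10 ^ 9 * Real.log (2 * m) := by
    have : 0 ≤ Real.log (2 * m) := Real.log_nonneg (by
      have : (1 : ℝ) ≤ m := by exact_mod_cast hm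
      linarith)
    positivity
  have h3 : h A z ≤ 10 ^ 9 * Real.log (2 * m) * Real.log K :=
    h1.trans (mul_le_mul_of_nonneg_left (h1'.trans h2) hc0)
  -- a popular class
  obtain ⟨x, hx, hx2⟩ : ∃ x ∈ A, Real.log A.card - Real.log (fc A z x) ≤ h A z := by
    by_contra hcon
    push Not at hcon
    have h4 := sum_lt_sum_of_nonempty hA hcon
    rw [sum_const, nsmul_eq_mul] at h4
    have h5 : h A z * A.card = ∑ x ∈ A, (Real.log A.card - Real.log (fc A z x)) := by
      unfold h
      field_simp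
    linarith
  refine ⟨x, hx, ?_⟩
  have h4 : cl A z x ⊆ A.filter fun a => mult m • (a - x) ∈ sInf F := by
    intro y hy
    rw [mem_cl, hz, mk_eq_iff] at hy
    rw [mem_filter]
    refine ⟨hy.1, ?_⟩
    by_contra hcon
    have h5 := hG (y, x) hcon
    refine h5.2 ?_
    have h6 : G (y, x) ∈ T := by
      rw [hT]
      exact mem_image_of_mem _ (mem_filter.2 ⟨mem_product.2 ⟨hy.1, hx⟩, hcon⟩)
    exact (hg _ h5.1).1 _ (X_eq_iff'.1 (hy.2 _ h6))
  have h5 : (fc A z x : ℝ) ≤ (A.filter fun a => mult m • (a - x) ∈ sInf F).card := by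
    exact_mod_cast card_le_card h4
  have h6 := fc_posR (f := z) hx
  have h7 : Real.log A.card ≤ Real.log (K ^ (10 ^ 9 * Real.log (2 * m)) * fc A z x) := by
    rw [Real.log_mul (by positivity) h6.ne', Real.log_rpow (by linarith)]
    linarith
  have h8 := (Real.log_le_log_iff hN (by positivity)).1 h7
  exact h8.trans (mul_le_mul_of_nonneg_left h5 (by positivity))

end Pool.Agent.Run7.h127.FV
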