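import Pool.Agent.Run7.h127.FV.Drop

/-!
# The step: adding a coordinate which has few values with few exceptions
-/

set_option autoImplicit false
set_option linter.unusedSectionVars false

namespace Pool.Agent.Run7.h127.FV

open Finset H112
open Pool.Agent.Y359.PE (h fc cl mem_cl fc_posR fc_pos fc_le fc_congr h_nonneg cell_left cell_right
  cell_main nz h_congr h_const h_le_log submod chain avg_cl cl_prod)
open scoped Classical

variable {α β γ δ : Type*} {V M : Type*} [AddCommGroup V] [AddCommGroup M]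

/-- the number of the exceptional elements of the classes -/
lemma sum_exc (A : Finset α) (F : α → β) (E : Finset α) :
    ∑ u ∈ A, (((cl A F u).filter fun a => a ∉ E).card : ℝ) / fc A F u =
      (A.filter fun a => a ∉ E).card := by
  have h1 := avg_cl A F (fun a => if a ∉ E then (1 : ℝ) else 0)
  have h2 : ∀ T : Finset α, ∑ y ∈ T, (if y ∉ E then (1 : ℝ) else 0) =
      (T.filter fun a => a ∉ E).card := by
    intro T
    rw [← sum_filter, sum_const, nsmul_eq_mul, mul_one]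
  simp only [h2] at h1
  exact h1

lemma nz_le_of_atom (T : Finset α) (c : α → V) (w : V)
    (hT : 999 / 1000 * (T.card : ℝ) ≤ (T.filter fun g => c g = w).card) :
    (nz T (fun g => c g - w) : ℝ) ≤ 1 / 1000 * T.card := by
  have e1 := card_filter_add_card_filter_not (s := T) (fun g => c g = w)
  have e2 : nz T (fun g => c g - w) = (T.filter fun g => ¬ c g = w).card := by
    unfold nz
    congr 1
    ext g
    rw [mem_filter, mem_filter, Ne, sub_eq_zero]
  rw [e2]
  have e3 : ((T.filter fun g => c g = w).card : ℝ) + (T.filter fun g => ¬ c g = w).card =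
      T.card := by exact_mod_cast e1
  linarith

/-- two cells with a common value which is taken almost always -/
lemma cell_atoms (G : Finset α) (G' : Finset β) (hG : G.Nonempty) (hG' : G'.Nonempty)
    (a : α → V) (b : β → V) (v v' : V)
    (h1 : 999 / 1000 * (G.card : ℝ) ≤ (G.filter fun g => a g = v).card)
    (h2 : 999 / 1000 * (G'.card : ℝ) ≤ (G'.filter fun g => b g = v').card) :
    2 / 3 * (h G a + h G' b) ≤ h (G ×ˢ G') (fun x => a x.1 + b x.2) := by
  have key := cell_main G G' hG hG' (fun g => a g - v) (fun g => b g - v') (θ := 1 / 1000)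
    (by norm_num) (by norm_num) (nz_le_of_atom G a v h1) (nz_le_of_atom G' b v' h2)
  have e1 : h G (fun g => a g - v) = h G a := h_congr fun x _ y _ => sub_left_inj
  have e2 : h G' (fun g => b g - v') = h G' b := h_congr fun x _ y _ => sub_left_inj
  have e3 : h (G ×ˢ G') (fun x => (a x.1 - v) + (b x.2 - v')) =
      h (G ×ˢ G') (fun x => a x.1 + b x.2) := by
    refine h_congr fun x _ y _ => ?_
    have : ∀ x : α × β, (a x.1 - v) + (b x.2 - v') = (a x.1 + b x.2) - (v + v') := by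
      intro x
      abel
    rw [this, this, sub_left_inj]
  rw [e1, e2, e3] at key
  refine le_trans ?_ key
  refine mul_le_mul_of_nonneg_right ?_ (add_nonneg (h_nonneg _ _) (h_nonneg _ _))
  have hlog : 6 ≤ Real.log (1 / (1 / 1000)) := by
    have e4 : (1 / (1 / 1000) : ℝ) = 1000 := by norm_num
    rw [e4]
    have e5 : Real.log ((2 : ℝ) ^ 9) ≤ Real.log 1000 :=
      Real.log_le_log (by norm_num) (by norm_num)
    rw [Real.log_pow] at e5
    have := Real.log_two_gt_d9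
    norm_num at this e5 ⊢
    linarith
  have : 2 / Real.log (1 / (1 / 1000)) ≤ 1 / 3 := by
    rw [div_le_div_iff₀ (by linarith) (by norm_num)]
    linarith
  linarith

section reals

variable {A Gd typ : Finset α} {η : α → ℝ} {Hs : α → α → ℝ} {L D₀ N S : ℝ}

/-- the case of a large growth -/
lemma case_large (hN : 0 < N) (hNd : (A.card : ℝ) = N) (hS : ∑ u ∈ A, η u = S) (hS0 : 0 ≤ S)
    (htypA : typ ⊆ A) (hL : 69 / 100 ≤ L)
    (hHr : ∀ u ∈ A, ∀ v ∈ A, η v ≤ Hs u v)
    (hbig : ∀ u ∈ A, ∀ v ∈ typ, 7 / 8 * η u - L + η v ≤ Hs u v)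
    (htypc : 92 / 100 * N ≤ typ.card)
    (hWD : ∑ u ∈ A, ∑ v ∈ A, Hs u v = N ^ 2 * D₀ + N * S)
    (hD : 1 / 200000000 ≤ D₀) : S / N ≤ 10 ^ 9 * L * D₀ := by
  have htypN : (typ.card : ℝ) ≤ N := by
    rw [← hNd]
    exact_mod_cast card_le_card htypA
  have h1 : ∀ u ∈ A, ∀ v ∈ A, (if v ∈ typ then 7 / 8 * η u - L else 0) + η v ≤ Hs u v := by
    intro u hu v hv
    split_ifs with hvt
    · exact hbig u hu v hvt
    · have := hHr u hu v hv
      linarith
  have h2 : ∑ u ∈ A, ∑ v ∈ A, ((if v ∈ typ then 7 / 8 * η u - L else 0) + η v) ≤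
      N ^ 2 * D₀ + N * S := by
    rw [← hWD]
    exact sum_le_sum fun u hu => sum_le_sum fun v hv => h1 u hu v hv
  have h3 : ∀ u ∈ A, ∑ v ∈ A, ((if v ∈ typ then 7 / 8 * η u - L else 0) + η v) =
      typ.card * (7 / 8) * η u + (S - typ.card * L) := by
    intro u _
    rw [sum_add_distrib, ← sum_filter, sum_const, nsmul_eq_mul, hS]
    have : A.filter (fun v => v ∈ typ) = typ := by
      rw [filter_mem_eq_inter]
      exact inter_eq_right.2 htypA
    rw [this]
    ring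
  rw [sum_congr rfl h3, sum_add_distrib, sum_const, nsmul_eq_mul, ← mul_sum, hS, hNd] at h2
  -- `(7/8) t S - N t L ≤ N² D₀`
  have h4 : typ.card * (7 / 8) * S - N * (typ.card * L) ≤ N ^ 2 * D₀ := by linarith
  have h5 : 92 / 100 * N * (7 / 8) * S ≤ typ.card * (7 / 8) * S := by
    refine mul_le_mul_of_nonneg_right ?_ hS0
    linarith
  have h6 : N * (typ.card * L) ≤ N * (N * L) := by
    refine mul_le_mul_of_nonneg_left ?_ hN.le
    exact mul_le_mul_of_nonneg_right htypN (by linarith)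
  have h7 : 8 / 10 * (S / N) - L ≤ D₀ := by
    have h8 : (8 / 10 * (S / N) - L) * N ^ 2 = 8 / 10 * N * S - N * (N * L) := by
      field_simp
    have h9 : (8 / 10 * (S / N) - L) * N ^ 2 ≤ D₀ * N ^ 2 := by
      rw [h8]
      have : 0 ≤ N * S := by positivity
      linarith
    exact le_of_mul_le_mul_right h9 (by positivity)
  have hD₀0 : 0 < D₀ := by linarith
  rcases le_or_gt (5 * L) (S / N) with h8 | h8
  · have h9 : S / N ≤ 2 * D₀ := by linarith
    refine h9.trans (mul_le_mul_of_nonneg_right ?_ hD₀0.le)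
    linarith
  · have h9 : 5 * L ≤ 10 ^ 9 * L * D₀ := by
      have h10 : 5 ≤ 10 ^ 9 * D₀ := by linarith
      have h11 := mul_le_mul_of_nonneg_right h10 (show (0 : ℝ) ≤ L by linarith)
      linarith
    linarith

/-- the case of atoms -/
lemma case_atoms (hN : 0 < N) (hS : ∑ u ∈ A, η u = S) (hη0 : ∀ u, 0 ≤ η u)
    (hGdsub : Gd ⊆ A)
    (hHl : ∀ u ∈ A, ∀ v ∈ A, η u ≤ Hs u v) (hHr : ∀ u ∈ A, ∀ v ∈ A, η v ≤ Hs u v)
    (hgg : ∀ u ∈ Gd, ∀ v ∈ Gd, 2 / 3 * (η u + η v) ≤ Hs u v)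
    (hGdc : 9 / 10 * N ≤ Gd.card)
    (hWD : ∑ u ∈ A, ∑ v ∈ A, Hs u v = N ^ 2 * D₀ + N * S) : S / N ≤ 5 * D₀ := by
  have hS0 : 0 ≤ S := hS ▸ sum_nonneg fun u _ => hη0 u
  obtain ⟨Sg, hSg⟩ : ∃ Sg, Sg = ∑ u ∈ Gd, η u := ⟨_, rfl⟩
  obtain ⟨Sb, hSb⟩ : ∃ Sb, Sb = ∑ u ∈ A \ Gd, η u := ⟨_, rfl⟩
  have hSgb : Sb + Sg = S := by
    rw [hSb, hSg, ← hS]
    exact sum_sdiff hGdsub
  have hSg0 : 0 ≤ Sg := hSg ▸ sum_nonneg fun u _ => hη0 u
  have hSb0 : 0 ≤ Sb := hSb ▸ sum_nonneg fun u _ => hη0 u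
  have h1 : ∀ u ∈ Gd, 2 / 3 * (Gd.card * η u + Sg) + Sb ≤ ∑ v ∈ A, Hs u v := by
    intro u hu
    rw [← sum_sdiff hGdsub]
    have h2 : Sb ≤ ∑ v ∈ A \ Gd, Hs u v := by
      rw [hSb]
      exact sum_le_sum fun v hv => hHr u (hGdsub hu) v (mem_sdiff.1 hv).1
    have h3 : 2 / 3 * (Gd.card * η u + Sg) ≤ ∑ v ∈ Gd, Hs u v := by
      refine le_trans (le_of_eq ?_) (sum_le_sum fun v hv => hgg u hu v hv)
      rw [← mul_sum, sum_add_distrib, sum_const, nsmul_eq_mul, hSg]
    linarith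
  have h2 : ∀ u ∈ A \ Gd, Gd.card * η u ≤ ∑ v ∈ A, Hs u v := by
    intro u hu
    have huA := (mem_sdiff.1 hu).1
    rw [← nsmul_eq_mul, ← sum_const]
    refine (sum_le_sum fun v hv => hHl u huA v (hGdsub hv)).trans
      (sum_le_sum_of_subset_of_nonneg hGdsub fun v hv _ => ?_)
    exact (hη0 u).trans (hHl u huA v hv)
  have h3 : 2 / 3 * (Gd.card * Sg + Gd.card * Sg) + Gd.card * Sb + Gd.card * Sb ≤
      N ^ 2 * D₀ + N * S := by
    rw [← hWD, ← sum_sdiff hGdsub]
    have h4 : Gd.card * Sb ≤ ∑ u ∈ A \ Gd, ∑ v ∈ A, Hs u v := by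
      rw [hSb, mul_sum]
      exact sum_le_sum h2
    have h5 : 2 / 3 * (Gd.card * Sg + Gd.card * Sg) + Gd.card * Sb ≤
        ∑ u ∈ Gd, ∑ v ∈ A, Hs u v := by
      refine le_trans (le_of_eq ?_) (sum_le_sum h1)
      rw [sum_add_distrib, sum_const, nsmul_eq_mul, ← mul_sum, sum_add_distrib, ← mul_sum,
        sum_const, nsmul_eq_mul, ← hSg]
    linarith
  have h4 : 4 / 3 * (Gd.card * S) ≤ N ^ 2 * D₀ + N * S := by
    rw [← hSgb] at h3 ⊢
    have : 0 ≤ (Gd.card : ℝ) * Sb := by positivity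
    linarith
  have h5 : 9 / 10 * N * S ≤ Gd.card * S := mul_le_mul_of_nonneg_right hGdc hS0
  have h6 : 2 / 10 * (S / N) ≤ D₀ := by
    have h8 : (2 / 10 * (S / N)) * N ^ 2 = 2 / 10 * N * S := by
      field_simp
    have h9 : (2 / 10 * (S / N)) * N ^ 2 ≤ D₀ * N ^ 2 := by
      rw [h8]
      linarith
    exact le_of_mul_le_mul_right h9 (by positivity)
  linarith

/-- in the case of a small growth there is a good class -/
lemma good_class (hA : A.Nonempty) (hN : 0 < N) (hNd : (A.card : ℝ) = N)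
    (hS : ∑ u ∈ A, η u = S)
    (hHl : ∀ u ∈ A, ∀ v ∈ A, η u ≤ Hs u v) (hHr : ∀ u ∈ A, ∀ v ∈ A, η v ≤ Hs u v)
    (hWD : ∑ u ∈ A, ∑ v ∈ A, Hs u v = N ^ 2 * D₀ + N * S) (hD : D₀ < 1 / 200000000) :
    ∃ u₀ ∈ A, 9 / 10 * N ≤
      (A.filter fun v => Hs u₀ v - η u₀ / 2 - η v / 2 ≤ 1 / 20000000).card := by
  have hk0 : ∀ u ∈ A, ∀ v ∈ A, 0 ≤ Hs u v - η u / 2 - η v / 2 := by
    intro u hu v hv
    have h1 := hHl u hu v hv
    have h2 := hHr u hu v hv
    linarith
  have hksum : ∑ u ∈ A, ∑ v ∈ A, (Hs u v - η u / 2 - η v / 2) = N ^ 2 * D₀ := by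
    have h1 : ∀ u ∈ A, ∑ v ∈ A, (Hs u v - η u / 2 - η v / 2) =
        ∑ v ∈ A, Hs u v - (N / 2 * η u + S / 2) := by
      intro u _
      rw [sum_sub_distrib, sum_sub_distrib, sum_const, nsmul_eq_mul, ← sum_div, hS, hNd]
      ring
    rw [sum_congr rfl h1, sum_sub_distrib, sum_add_distrib, sum_const, nsmul_eq_mul, ← mul_sum,
      hS, hNd, hWD]
    ring
  obtain ⟨u₀, hu₀, hu₀s⟩ : ∃ u ∈ A, ∑ v ∈ A, (Hs u v - η u / 2 - η v / 2) ≤ N * D₀ := by
    refine exists_le_of_sum_le hA ?_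
    rw [hksum, sum_const, nsmul_eq_mul, hNd]
    exact le_of_eq (by ring)
  refine ⟨u₀, hu₀, ?_⟩
  have hbad : ((A.filter fun v => ¬ Hs u₀ v - η u₀ / 2 - η v / 2 ≤ 1 / 20000000).card : ℝ) ≤
      N / 10 := by
    have h1 : ((A.filter fun v => ¬ Hs u₀ v - η u₀ / 2 - η v / 2 ≤ 1 / 20000000).card : ℝ) *
        (1 / 20000000) ≤ ∑ v ∈ A, (Hs u₀ v - η u₀ / 2 - η v / 2) := by
      rw [← nsmul_eq_mul, ← sum_const]
      refine (sum_le_sum fun u hu => ?_).trans (sum_le_sum_of_subset_of_nonneg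
        (filter_subset (fun v => ¬ Hs u₀ v - η u₀ / 2 - η v / 2 ≤ 1 / 20000000) A)
        fun v hv _ => hk0 u₀ hu₀ v hv)
      rw [mem_filter, not_le] at hu
      exact hu.2.le
    have h2 : N * D₀ ≤ N * (1 / 200000000) := mul_le_mul_of_nonneg_left hD.le hN.le
    linarith
  have h1 := card_filter_add_card_filter_not (s := A)
    (fun v => Hs u₀ v - η u₀ / 2 - η v / 2 ≤ 1 / 20000000)
  have h2 : ((A.filter fun v => Hs u₀ v - η u₀ / 2 - η v / 2 ≤ 1 / 20000000).card : ℝ) +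
      (A.filter fun v => ¬ Hs u₀ v - η u₀ / 2 - η v / 2 ≤ 1 / 20000000).card = N := by
    rw [← hNd]
    exact_mod_cast h1
  linarith

/-- the typical classes -/
lemma typ_card {q : α → ℝ} (hNd : (A.card : ℝ) = N) (hq0 : ∀ u, 0 ≤ q u)
    (hqs : ∑ u ∈ A, q u ≤ N / 100) : 92 / 100 * N ≤ (A.filter fun u => q u ≤ 1 / 8).card := by
  have h1 : ((A.filter fun u => ¬ q u ≤ 1 / 8).card : ℝ) * (1 / 8) ≤ ∑ u ∈ A, q u := by
    rw [← nsmul_eq_mul, ← sum_const]
    refine (sum_le_sum fun u hu => ?_).trans (sum_le_sum_of_subset_of_nonneg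
      (filter_subset (fun u => ¬ q u ≤ 1 / 8) A) fun u _ _ => hq0 u)
    rw [mem_filter, not_le] at hu
    exact hu.2.le
  have h2 := card_filter_add_card_filter_not (s := A) (fun u => q u ≤ 1 / 8)
  have h3 : ((A.filter fun u => q u ≤ 1 / 8).card : ℝ) +
      (A.filter fun u => ¬ q u ≤ 1 / 8).card = N := by
    rw [← hNd]
    exact_mod_cast h2
  linarith

end reals

/-- a nontrivial subgroup along which almost all classes are spread contradicts the hypothesis on
the drops -/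
lemma case_spread {A : Finset α} {F : α → M} {x : α → V} {E : Finset α} (hEA : E ⊆ A)
    {K : AddSubgroup V} [Finite K] (hK : K ≠ ⊥) {Gd : Finset α} (hGdA : Gd ⊆ A)
    (hKc : ∀ v ∈ Gd, Conc K (cl A F v) x)
    (hGdc : 9 / 10 * (A.card : ℝ) ≤ Gd.card)
    (hδ : 100 * ((A.filter fun a => a ∉ E).card : ℝ) ≤ A.card) :
    A.card / 2 * Real.log (Nat.card K) ≤ drop E x K := by
  have hlK : 0 ≤ Real.log (Nat.card K) := Real.log_natCast_nonneg _
  have hge := drop_ge A F E hEA x K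
  have hqs := sum_exc A F E
  have h1 : ∀ u ∈ A, Real.log (Nat.card K) * ((if u ∈ Gd then 9 / 10 else 0) -
      7 / 2 * ((((cl A F u).filter fun a => a ∉ E).card : ℝ) / fc A F u)) ≤
        drop (cut A F E u) x K / fc A F u := by
    intro u hu
    have hfc : (0 : ℝ) < fc A F u := fc_posR hu
    split_ifs with huG
    · have h2 := (hKc u huG).le_drop hK ⟨u, mem_cl.2 ⟨hu, rfl⟩⟩ E
      have h3 : ((cl A F u).card : ℝ) = fc A F u := rfl
      rw [h3] at h2
      rw [le_div_iff₀ hfc]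
      refine le_trans (le_of_eq ?_) h2
      field_simp
    · have h2 : 0 ≤ drop (cut A F E u) x K / fc A F u :=
        div_nonneg (drop_nonneg _ _ _) hfc.le
      have h3 : 0 ≤ (((cl A F u).filter fun a => a ∉ E).card : ℝ) / fc A F u := by positivity
      have h4 := mul_nonneg hlK h3
      linarith
  have h2 : Real.log (Nat.card K) * (9 / 10 * Gd.card -
      7 / 2 * ((A.filter fun a => a ∉ E).card : ℝ)) ≤ drop E x K := by
    refine le_trans (le_of_eq ?_) ((sum_le_sum h1).trans hge)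
    rw [← mul_sum, sum_sub_distrib, ← mul_sum, hqs, ← sum_filter, sum_const, nsmul_eq_mul]
    have : A.filter (fun v => v ∈ Gd) = Gd := by
      rw [filter_mem_eq_inter]
      exact inter_eq_right.2 hGdA
    rw [this]
    ring
  have h3 : (A.card : ℝ) / 2 ≤ 9 / 10 * Gd.card -
      7 / 2 * ((A.filter fun a => a ∉ E).card : ℝ) := by
    have : (0 : ℝ) ≤ A.card := Nat.cast_nonneg _
    linarith
  have h4 := mul_le_mul_of_nonneg_left h3 hlK
  linarith

/-- **The step.** -/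
theorem step (A : Finset α) (hA : A.Nonempty) (F : α → M) (x : α → V) (E : Finset α)
    (hEA : E ⊆ A) (B : Finset V) {m : ℕ} (hm : 1 ≤ m) (hB : B.card ≤ m)
    (hE : ∀ a ∈ E, x a ∈ B)
    (hδ : 100 * ((A.filter fun a => a ∉ E).card : ℝ) ≤ A.card)
    (hNR : ∀ K : AddSubgroup V, Finite K → K ≠ ⊥ → Nat.card K ≤ 2 * m →
      drop E x K < A.card / 2 * Real.log (Nat.card K)) :
    h A (fun u => (F u, x u)) - h A F ≤ 10 ^ 9 * Real.log (2 * m) *
      (h (A ×ˢ A) (fun s => (F s.1 + F s.2, x s.1 + x s.2)) - h (A ×ˢ A) (fun s => F s.1 + F s.2) -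
        (h A (fun u => (F u, x u)) - h A F)) := by
  obtain ⟨N, hNd⟩ : ∃ N : ℝ, (A.card : ℝ) = N := ⟨_, rfl⟩
  have hN : (0 : ℝ) < N := by
    rw [← hNd]
    exact_mod_cast card_pos.2 hA
  have hm1 : (1 : ℝ) ≤ m := by exact_mod_cast hm
  obtain ⟨L, hL⟩ : ∃ L : ℝ, Real.log (2 * m) = L := ⟨_, rfl⟩
  have hL69 : 69 / 100 ≤ L := by
    have h1 : Real.log 2 ≤ L := by
      rw [← hL]
      exact Real.log_le_log (by norm_num) (by linarith)
    have := Real.log_two_gt_d9
    norm_num at this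
    linarith
  have hcne : ∀ u ∈ A, (cl A F u).Nonempty := fun u hu => ⟨u, mem_cl.2 ⟨hu, rfl⟩⟩
  obtain ⟨η, hη⟩ : ∃ η : α → ℝ, ∀ u, η u = h (cl A F u) x := ⟨_, fun _ => rfl⟩
  have hη0 : ∀ u, 0 ≤ η u := fun u => hη u ▸ h_nonneg _ _
  obtain ⟨Hs, hHs⟩ : ∃ Hs : α → α → ℝ,
    ∀ u v, Hs u v = h (cl A F u ×ˢ cl A F v) (fun s => x s.1 + x s.2) := ⟨_, fun _ _ => rfl⟩
  have hHl : ∀ u ∈ A, ∀ v ∈ A, η u ≤ Hs u v := fun u _ v hv => by
    rw [hη, hHs]
    exact cell_left (cl A F u) (cl A F v) (hcne v hv) x x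
  have hHr : ∀ u ∈ A, ∀ v ∈ A, η v ≤ Hs u v := fun u hu v _ => by
    rw [hη, hHs]
    exact cell_right (cl A F u) (cl A F v) (hcne u hu) x x
  obtain ⟨S, hS⟩ : ∃ S, ∑ u ∈ A, η u = S := ⟨_, rfl⟩
  have hS0 : 0 ≤ S := hS ▸ sum_nonneg fun u _ => hη0 u
  have ha : h A (fun u => (F u, x u)) - h A F = S / N := by
    rw [chain A F x, ← hS, ← hNd]
    congr 1
    exact sum_congr rfl fun u _ => (hη u).symm
  obtain ⟨W, hW⟩ : ∃ W, ∑ u ∈ A, ∑ v ∈ A, Hs u v = W := ⟨_, rfl⟩
  obtain ⟨D, hDd⟩ : ∃ D, h (A ×ˢ A) (fun s => (F s.1 + F s.2, x s.1 + x s.2)) -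
    h (A ×ˢ A) (fun s => F s.1 + F s.2) = D := ⟨_, rfl⟩
  have hD : W / N ^ 2 ≤ D := by
    have h1 := submod (A ×ˢ A) (fun s => F s.1 + F s.2) (fun s => (F s.1, F s.2))
      (fun s => x s.1 + x s.2) (by
        intro s _ t _ hst
        rw [Prod.mk.injEq] at hst
        show F s.1 + F s.2 = F t.1 + F t.2
        rw [hst.1, hst.2])
    rw [← hDd]
    refine le_trans (le_of_eq ?_) h1
    rw [chain (A ×ˢ A) (fun s => (F s.1, F s.2)) (fun s => x s.1 + x s.2), card_product,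
      sum_product, ← hW, ← hNd]
    push_cast
    rw [← sq]
    congr 1
    refine sum_congr rfl fun u _ => sum_congr rfl fun v _ => ?_
    rw [cl_prod, hHs]
  rw [ha, hDd, hL]
  obtain ⟨D₀, hD₀⟩ : ∃ D₀, D₀ = W / N ^ 2 - S / N := ⟨_, rfl⟩
  have hD₀D : D₀ ≤ D - S / N := by linarith
  have hWD : ∑ u ∈ A, ∑ v ∈ A, Hs u v = N ^ 2 * D₀ + N * S := by
    have e1 : N ^ 2 * (W / N ^ 2) = W := mul_div_cancel₀ W (pow_pos hN 2).ne'
    have e2 : N ^ 2 * (S / N) = N * S := by
      rw [sq, mul_assoc, mul_div_cancel₀ S hN.ne']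
    rw [hW, hD₀, mul_sub, e1, e2]
    ring
  have hD₀0 : 0 ≤ D₀ := by
    have h1 : N * S ≤ ∑ u ∈ A, ∑ v ∈ A, Hs u v := by
      have h2 : ∑ u ∈ A, ∑ v ∈ A, η v ≤ ∑ u ∈ A, ∑ v ∈ A, Hs u v :=
        sum_le_sum fun u hu => sum_le_sum fun v hv => hHr u hu v hv
      rw [hS, sum_const, nsmul_eq_mul, hNd] at h2
      exact h2
    rw [hWD] at h1
    have h2 : 0 ≤ N ^ 2 * D₀ := by linarith
    by_contra hcon
    push Not at hcon
    have := mul_neg_of_pos_of_neg (show 0 < N ^ 2 by positivity) hcon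
    linarith
  suffices hs : S / N ≤ 10 ^ 9 * L * D₀ from
    hs.trans (mul_le_mul_of_nonneg_left hD₀D (by positivity))
  -- the exceptional elements of the classes
  obtain ⟨q, hq⟩ : ∃ q : α → ℝ,
    ∀ u, q u = (((cl A F u).filter fun a => a ∉ E).card : ℝ) / fc A F u := ⟨_, fun _ => rfl⟩
  have hq0 : ∀ u, 0 ≤ q u := fun u => by
    rw [hq]
    exact div_nonneg (Nat.cast_nonneg _) (Nat.cast_nonneg _)
  have hqs : ∑ u ∈ A, q u ≤ N / 100 := by
    have h1 : ∑ u ∈ A, q u = (A.filter fun a => a ∉ E).card := by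
      rw [← sum_exc A F E]
      exact sum_congr rfl fun u _ => hq u
    rw [h1, ← hNd]
    linarith
  have htypc := typ_card hNd hq0 hqs
  have htyp8 : ∀ v ∈ A.filter (fun u => q u ≤ 1 / 8),
      (((cl A F v).filter fun a => a ∉ E).card : ℝ) ≤ (cl A F v).card / 8 := by
    intro v hv
    rw [mem_filter] at hv
    have h1 := hv.2
    have h2 : (0 : ℝ) < fc A F v := fc_posR hv.1
    rw [hq, div_le_iff₀ h2] at h1
    have h3 : (fc A F v : ℝ) = (cl A F v).card := rfl
    rw [h3] at h1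
    linarith
  have htypA : A.filter (fun u => q u ≤ 1 / 8) ⊆ A := filter_subset _ _
  obtain ⟨typ, htyp⟩ : ∃ typ, A.filter (fun u => q u ≤ 1 / 8) = typ := ⟨_, rfl⟩
  rw [htyp] at htypc htyp8 htypA
  by_cases hcase : 1 / 200000000 ≤ D₀
  · -- large doubling
    refine case_large hN hNd hS hS0 htypA hL69 hHr ?_ htypc hWD hcase
    intro u hu v hvt
    have h1 := large (cl A F u) (cl A F v) (hcne u hu) (hcne v (htypA hvt)) x x E B hm hB
      (fun g _ hgE => hE g hgE) (htyp8 v hvt)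
    rw [hHs, hη, hη, ← hL]
    linarith
  · -- small doubling
    push Not at hcase
    obtain ⟨u₀, hu₀, hGdc⟩ := good_class hA hN hNd hS hHl hHr hWD hcase
    have hGdA : A.filter (fun v => Hs u₀ v - η u₀ / 2 - η v / 2 ≤ 1 / 20000000) ⊆ A :=
      filter_subset _ _
    have hst : ∀ v ∈ A.filter (fun v => Hs u₀ v - η u₀ / 2 - η v / 2 ≤ 1 / 20000000),
        ∃ K : AddSubgroup V, Finite K ∧
        (∀ g, g ∈ K ↔ Near (lw (cl A F u₀) x) g (1 / 25)) ∧ Conc K (cl A F v) x := by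
      intro v hv
      have h1 := (mem_filter.1 hv).2
      rw [hHs, hη, hη] at h1
      exact struct_cell (hcne u₀ hu₀) (hcne v (hGdA hv)) x x h1
    obtain ⟨Gd, hGd⟩ : ∃ Gd, A.filter (fun v => Hs u₀ v - η u₀ / 2 - η v / 2 ≤ 1 / 20000000) =
      Gd := ⟨_, rfl⟩
    rw [hGd] at hGdc hGdA hst
    have hGdne : Gd.Nonempty := by
      rw [← card_pos]
      have : (0 : ℝ) < Gd.card := by linarith
      exact_mod_cast this
    obtain ⟨v₁, hv₁⟩ := hGdne
    obtain ⟨K, hKfin, hKmem, -⟩ := hst v₁ hv₁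
    have hKc : ∀ v ∈ Gd, Conc K (cl A F v) x := by
      intro v hv
      obtain ⟨K', -, hK'mem, hK'⟩ := hst v hv
      have : K' = K := by
        ext g
        rw [hKmem, hK'mem]
      rw [← this]
      exact hK'
    by_cases hK : K = ⊥
    · -- almost all classes have an atom
      have hat : ∀ v ∈ Gd, ∃ w : V, 999 / 1000 * ((cl A F v).card : ℝ) ≤
          ((cl A F v).filter fun g => x g = w).card := by
        intro v hv
        obtain ⟨w, c, hc, -, hm'⟩ := (hKc v hv).conc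
        refine ⟨w, hm'.trans ?_⟩
        have h1 : (cl A F v).filter (fun s => x s ∈ c) ⊆ (cl A F v).filter (fun s => x s = w) := by
          intro s hs
          rw [mem_filter] at hs ⊢
          refine ⟨hs.1, ?_⟩
          have h2 := (hc _).1 hs.2
          rw [hK, AddSubgroup.mem_bot, sub_eq_zero] at h2
          exact h2
        exact_mod_cast card_le_card h1
      have h7 : S / N ≤ 5 * D₀ := by
        refine case_atoms hN hS hη0 hGdA hHl hHr ?_ hGdc hWD
        intro u hu v hv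
        obtain ⟨w, hw⟩ := hat u hu
        obtain ⟨w', hw'⟩ := hat v hv
        rw [hη, hη, hHs]
        exact cell_atoms (cl A F u) (cl A F v) (hcne u (hGdA hu)) (hcne v (hGdA hv)) x x w w'
          hw hw'
      refine h7.trans (mul_le_mul_of_nonneg_right ?_ hD₀0)
      linarith
    · -- a large drop modulo `K`
      exfalso
      -- a typical good class
      obtain ⟨v, hv⟩ : (Gd ∩ typ).Nonempty := by
        rw [← card_pos]
        have h1 := card_union_add_card_inter Gd typ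
        have h2 : (Gd ∪ typ).card ≤ A.card := card_le_card (union_subset hGdA htypA)
        have h3 : ((Gd ∪ typ).card : ℝ) + (Gd ∩ typ).card = Gd.card + typ.card := by
          exact_mod_cast h1
        have h4 : ((Gd ∪ typ).card : ℝ) ≤ N := by
          rw [← hNd]
          exact_mod_cast h2
        have h5 : (0 : ℝ) < (Gd ∩ typ).card := by linarith
        exact_mod_cast h5
      rw [mem_inter] at hv
      have hcl := (hKc v hv.1).card_le (hcne v (hGdA hv.1)) (B := B) (by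
        have h1 := htyp8 v hv.2
        have h2 := card_filter_add_card_filter_not (s := cl A F v) (fun a => a ∈ E)
        have h3 : (((cl A F v).filter fun a => a ∈ E).card : ℝ) +
            ((cl A F v).filter fun a => a ∉ E).card = (cl A F v).card := by exact_mod_cast h2
        have h4 : (cl A F v).filter (fun a => a ∈ E) ⊆ (cl A F v).filter (fun s => x s ∈ B) := by
          intro s hs
          rw [mem_filter] at hs ⊢
          exact ⟨hs.1, hE s hs.2⟩
        have h5 : (((cl A F v).filter fun a => a ∈ E).card : ℝ) ≤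
            ((cl A F v).filter fun s => x s ∈ B).card := by exact_mod_cast card_le_card h4
        linarith)
      have hK2m : Nat.card K ≤ 2 * m := by
        have h1 : (B.card : ℝ) ≤ m := by exact_mod_cast hB
        have h2 : (Nat.card K : ℝ) ≤ 2 * m := by linarith
        exact_mod_cast h2
      have hlt := hNR K hKfin hK hK2m
      have hge := case_spread hEA hK hGdA hKc (by rw [hNd]; exact hGdc) hδ
      linarith

end Pool.Agent.Run7.h127.FV
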