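import Pool.Agent.H112R2.KL

/-!
# Two laws whose sum has almost no more entropy than each of them

If `H(p * q)` is almost equal to `H p` and to `H q`, then the translations which almost preserve `p`
are the translations which almost preserve `q`; they form a finite subgroup, and each of the two laws
is concentrated on a coset of it.
-/

set_option autoImplicit false

namespace Pool.Agent.Run7.h127.FV

open Finset H112

variable {G : Type*} [AddCommGroup G]

/-- The law `q` changes by at most `t` in the `ℓ¹` norm when it is translated by `g`. -/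
def Near (q : AddMonoidAlgebra ℝ G) (g : G) (t : ℝ) : Prop :=
  ∀ s : Finset G, ∑ y ∈ s, |q.coeff (y - g) - q.coeff y| ≤ t

lemma near_zero (q : AddMonoidAlgebra ℝ G) {t : ℝ} (ht : 0 ≤ t) : Near q 0 t := by
  intro s
  simp [ht]

lemma Near.mono {q : AddMonoidAlgebra ℝ G} {g : G} {t t' : ℝ} (h : Near q g t) (htt : t ≤ t') :
    Near q g t' := fun s => (h s).trans htt

lemma near_neg {q : AddMonoidAlgebra ℝ G} {g : G} {t : ℝ} (h : Near q g t) : Near q (-g) t := by
  classical
  intro s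
  refine le_trans (le_of_eq ?_) (h (s.image fun y => y + g))
  rw [sum_image (fun a _ b _ hab => add_right_cancel hab)]
  refine sum_congr rfl fun y _ => ?_
  rw [sub_neg_eq_add, add_sub_cancel_right, abs_sub_comm]

lemma near_add {q : AddMonoidAlgebra ℝ G} {g g' : G} {t t' : ℝ} (h : Near q g t)
    (h' : Near q g' t') : Near q (g + g') (t + t') := by
  classical
  intro s
  have e1 : ∑ y ∈ s, |q.coeff (y - g' - g) - q.coeff (y - g')| ≤ t := by
    refine le_trans (le_of_eq ?_) (h (s.image fun y => y - g'))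
    rw [sum_image (fun a _ b _ hab => sub_left_injective hab)]
  calc ∑ y ∈ s, |q.coeff (y - (g + g')) - q.coeff y|
      ≤ ∑ y ∈ s, (|q.coeff (y - g' - g) - q.coeff (y - g')| + |q.coeff (y - g') - q.coeff y|) := by
        refine sum_le_sum fun y _ => ?_
        have : y - (g + g') = y - g' - g := by abel
        rw [this]
        exact abs_sub_le _ _ _
    _ ≤ t + t' := by
        rw [sum_add_distrib]
        exact add_le_add e1 (h' s)

/-- Most points `x` of `p` are such that the translate of `q` by `x` is close to `p * q`. -/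
lemma typical {p q : AddMonoidAlgebra ℝ G} (hp : Law p) (hq : Law q) {ω ζ : ℝ} (hω : 0 < ω)
    (h : H (p * q) - H q ≤ ζ * ω) :
    ∃ X₀ : Finset G, 1 - ζ ≤ ∑ x ∈ X₀, p.coeff x ∧
      ∀ x ∈ X₀, ∀ s : Finset G, ∑ y ∈ s, |q.coeff (y - x) - (p * q).coeff y| ≤
        2 * Real.sqrt ω := by
  classical
  obtain ⟨D, hD0, hD, hDs⟩ := kl_decomp hp hq
  refine ⟨p.coeff.support.filter (fun x => D x ≤ ω), ?_, ?_⟩
  · have h1 : ∑ x ∈ p.coeff.support, p.coeff x = 1 := hp.2
    rw [← sum_filter_add_sum_filter_not p.coeff.support (fun x => D x ≤ ω)] at h1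
    have h2 : ω * ∑ x ∈ p.coeff.support.filter (fun x => ¬ D x ≤ ω), p.coeff x ≤ ζ * ω := by
      refine le_trans ?_ h
      rw [← hD, Finsupp.sum, mul_sum]
      refine (sum_le_sum (f := fun x => ω * p.coeff x) (g := fun x => p.coeff x * D x)
        fun x hx => ?_).trans (sum_le_sum_of_subset_of_nonneg (filter_subset _ _)
        fun x _ _ => mul_nonneg (hp.1 x) (hD0 x))
      rw [mem_filter, not_le] at hx
      have := hp.1 x
      show ω * p.coeff x ≤ p.coeff x * D x
      nlinarith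
    have h3 : ∑ x ∈ p.coeff.support.filter (fun x => ¬ D x ≤ ω), p.coeff x ≤ ζ := by
      refine le_of_mul_le_mul_left (a := ω) ?_ hω
      linarith
    linarith
  · intro x hx s
    rw [mem_filter] at hx
    refine (hDs x hx.1 s).trans ?_
    have := Real.sqrt_le_sqrt hx.2
    linarith

lemma near_of_typical {q r : AddMonoidAlgebra ℝ G} {X₀ : Finset G} {b : ℝ}
    (h : ∀ x ∈ X₀, ∀ s : Finset G, ∑ y ∈ s, |q.coeff (y - x) - r.coeff y| ≤ b)
    {x x' : G} (hx : x ∈ X₀) (hx' : x' ∈ X₀) : Near q (x - x') (b + b) := by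
  classical
  intro s
  set s' := s.image fun y => y + x' with hs'
  have e1 : ∑ y ∈ s, |q.coeff (y - (x - x')) - q.coeff y| =
      ∑ z ∈ s', |q.coeff (z - x) - q.coeff (z - x')| := by
    rw [hs', sum_image (fun a _ b _ hab => add_right_cancel hab)]
    refine sum_congr rfl fun y _ => ?_
    rw [add_sub_cancel_right]
    congr 3
    abel
  rw [e1]
  calc ∑ z ∈ s', |q.coeff (z - x) - q.coeff (z - x')|
      ≤ ∑ z ∈ s', (|q.coeff (z - x) - r.coeff z| + |q.coeff (z - x') - r.coeff z|) := by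
        refine sum_le_sum fun z _ => ?_
        rw [abs_sub_comm (q.coeff (z - x')) (r.coeff z)]
        exact abs_sub_le _ _ _
    _ ≤ b + b := by
        rw [sum_add_distrib]
        exact add_le_add (h x hx s') (h x' hx' s')

omit [AddCommGroup G] in
lemma law_sum_le_one {q : AddMonoidAlgebra ℝ G} (hq : Law q) (s : Finset G) :
    ∑ y ∈ s, q.coeff y ≤ 1 := by
  classical
  rw [← hq.2, Finsupp.sum]
  calc ∑ y ∈ s, q.coeff y ≤ ∑ y ∈ s ∪ q.coeff.support, q.coeff y :=
        sum_le_sum_of_subset_of_nonneg subset_union_left (fun y _ _ => hq.1 y)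
    _ = ∑ y ∈ q.coeff.support, q.coeff y := by
        symm
        apply sum_subset subset_union_right
        intro y _ hy
        exact Finsupp.notMem_support_iff.1 hy

/-- A translation which moves `q` by less than the maximum is a difference of typical points. -/
lemma mem_of_near {q : AddMonoidAlgebra ℝ G} (hq : Law q) {Y₀ : Finset G} {ζ t : ℝ}
    (hY : 1 - ζ ≤ ∑ y ∈ Y₀, q.coeff y) (ht : t < 2 - 4 * ζ) {g : G} (hg : Near q g t) :
    ∃ y ∈ Y₀, ∃ y' ∈ Y₀, g = y - y' := by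
  classical
  by_contra hcon
  push Not at hcon
  set Y₁ := Y₀.image (fun y => y + g) with hY₁
  set Y₂ := Y₀.image (fun y => y - g) with hY₂
  have d1 : Disjoint Y₀ Y₁ := by
    rw [disjoint_left]
    intro y hy hy1
    rw [hY₁, mem_image] at hy1
    obtain ⟨z, hz, hzy⟩ := hy1
    exact hcon y hy z hz (by rw [← hzy]; abel)
  have d2 : Disjoint Y₀ Y₂ := by
    rw [disjoint_left]
    intro y hy hy1
    rw [hY₂, mem_image] at hy1
    obtain ⟨z, hz, hzy⟩ := hy1
    exact hcon z hz y hy (by rw [← hzy]; abel)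
  have s1 := law_sum_le_one hq (Y₀ ∪ Y₁)
  rw [sum_union d1] at s1
  have s2 := law_sum_le_one hq (Y₀ ∪ Y₂)
  rw [sum_union d2] at s2
  have e1 : ∑ y ∈ Y₀, q.coeff (y - g) = ∑ y ∈ Y₂, q.coeff y := by
    rw [hY₂, sum_image (fun a _ b _ hab => sub_left_injective hab)]
  have e2 : ∑ y ∈ Y₁, q.coeff (y - g) = ∑ y ∈ Y₀, q.coeff y := by
    rw [hY₁, sum_image (fun a _ b _ hab => add_right_cancel hab)]
    exact sum_congr rfl fun y _ => by rw [add_sub_cancel_right]
  have h1 := hg (Y₀ ∪ Y₁)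
  rw [sum_union d1] at h1
  have h2 : ∑ y ∈ Y₀, (q.coeff y - q.coeff (y - g)) ≤
      ∑ y ∈ Y₀, |q.coeff (y - g) - q.coeff y| := by
    refine sum_le_sum fun y _ => ?_
    rw [abs_sub_comm]
    exact le_abs_self _
  have h3 : ∑ y ∈ Y₁, (q.coeff (y - g) - q.coeff y) ≤
      ∑ y ∈ Y₁, |q.coeff (y - g) - q.coeff y| := sum_le_sum fun y _ => le_abs_self _
  rw [sum_sub_distrib] at h2 h3
  rw [e1] at h2
  rw [e2] at h3
  linarith

/-- **The structure of two laws whose sum has almost no more entropy.** -/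
theorem struct {p q : AddMonoidAlgebra ℝ G} (hp : Law p) (hq : Law q) {ω ζ : ℝ} (hω : 0 < ω)
    (hζ : ζ < 1) (hs : 8 * Real.sqrt ω < 2 - 4 * ζ)
    (h1 : H (p * q) - H q ≤ ζ * ω) (h2 : H (p * q) - H p ≤ ζ * ω) :
    ∃ K : AddSubgroup G, Finite K ∧ (∀ g, g ∈ K ↔ Near p g (4 * Real.sqrt ω)) ∧
      (∀ g, g ∈ K ↔ Near q g (4 * Real.sqrt ω)) ∧
      (∃ (x₀ : G) (S : Finset G), (∀ x ∈ S, x - x₀ ∈ K) ∧ 1 - ζ ≤ ∑ x ∈ S, p.coeff x) ∧
      ∃ (x₀ : G) (S : Finset G), (∀ x ∈ S, x - x₀ ∈ K) ∧ 1 - ζ ≤ ∑ x ∈ S, q.coeff x := by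
  classical
  have hw := Real.sqrt_nonneg ω
  obtain ⟨X₀, hX, hXs⟩ := typical hp hq hω h1
  rw [mul_comm p q] at h2
  obtain ⟨Y₀, hY, hYs⟩ := typical hq hp hω h2
  have nX : ∀ x ∈ X₀, ∀ x' ∈ X₀, Near q (x - x') (4 * Real.sqrt ω) := by
    intro x hx x' hx'
    have := near_of_typical (q := q) (r := p * q) hXs hx hx'
    refine this.mono (by linarith)
  have nY : ∀ x ∈ Y₀, ∀ x' ∈ Y₀, Near p (x - x') (4 * Real.sqrt ω) := by
    intro x hx x' hx'
    have := near_of_typical (q := p) (r := q * p) hYs hx hx'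
    refine this.mono (by linarith)
  have qp : ∀ g t, Near q g t → t < 2 - 4 * ζ → Near p g (4 * Real.sqrt ω) := by
    intro g t hg ht
    obtain ⟨y, hy, y', hy', rfl⟩ := mem_of_near hq hY ht hg
    exact nY y hy y' hy'
  have pq : ∀ g t, Near p g t → t < 2 - 4 * ζ → Near q g (4 * Real.sqrt ω) := by
    intro g t hg ht
    obtain ⟨y, hy, y', hy', rfl⟩ := mem_of_near hp hX ht hg
    exact nX y hy y' hy'
  have hlt : 4 * Real.sqrt ω < 2 - 4 * ζ := by linarith
  let K : AddSubgroup G :=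
    { carrier := {g | Near p g (4 * Real.sqrt ω)}
      zero_mem' := near_zero p (by positivity)
      add_mem' := by
        intro a b ha hb
        have h3 := near_add ha hb
        have h4 := pq _ _ h3 (by linarith)
        exact qp _ _ h4 hlt
      neg_mem' := fun ha => near_neg ha }
  have hKp : ∀ g, g ∈ K ↔ Near p g (4 * Real.sqrt ω) := fun g => Iff.rfl
  have hKq : ∀ g, g ∈ K ↔ Near q g (4 * Real.sqrt ω) :=
    fun g => ⟨fun h => pq g _ h hlt, fun h => qp g _ h hlt⟩
  have hXne : X₀.Nonempty := by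
    rw [nonempty_iff_ne_empty]
    rintro rfl
    rw [sum_empty] at hX
    linarith
  have hYne : Y₀.Nonempty := by
    rw [nonempty_iff_ne_empty]
    rintro rfl
    rw [sum_empty] at hY
    linarith
  obtain ⟨x₀, hx₀⟩ := hXne
  obtain ⟨y₀, hy₀⟩ := hYne
  refine ⟨K, ?_, hKp, hKq, ⟨x₀, X₀, fun x hx => (hKq _).2 (nX x hx x₀ hx₀), hX⟩,
    ⟨y₀, Y₀, fun x hx => (hKp _).2 (nY x hx y₀ hy₀), hY⟩⟩
  have hsub : (K : Set G) ⊆ ((Y₀ ×ˢ Y₀).image fun s => s.1 - s.2 : Finset G) := by
    intro g hg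
    obtain ⟨y, hy, y', hy', rfl⟩ := mem_of_near hq hY hlt ((hKq g).1 hg)
    rw [mem_coe, mem_image]
    exact ⟨(y, y'), mem_product.2 ⟨hy, hy'⟩, rfl⟩
  exact Set.Finite.subset (finite_toSet _) hsub

end Pool.Agent.Run7.h127.FV
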